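import Mathlib

/-!
# MP_539ca6_an: rotating vortex patches with right-angle corners -- definitions

All objects used in the proof of existence of a V-state with a 90 degree corner.
-/

open MeasureTheory Set

namespace Pool.Agent.Helper90.VS

noncomputable section

/-- `Λ(s,x) = log (cosh s − cos x)` -/
def Lam (s x : ℝ) : ℝ := Real.log (Real.cosh s - Real.cos x)

/-- `λ(s,x) = ∂_s Λ(s,x) = sinh s / (cosh s − cos x)` -/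
def lam (s x : ℝ) : ℝ := Real.sinh s / (Real.cosh s - Real.cos x)

/-- weight `w(τ) = e^{−2τ/m}` -/
def wt (m : ℕ) (τ : ℝ) : ℝ := Real.exp (-(2 * τ / m))

/-- `θ(t) = (m/2) (1 − e^{−2t/m})`, so `θ' = w`, `θ(0) = 0` -/
def th (m : ℕ) (t : ℝ) : ℝ := (m / 2) * (1 - Real.exp (-(2 * t / m)))

/-- `LL(a,X,s) = ∫_a^π [Λ(s,X−x) + Λ(s,X+x)] dx` -/
def LL (a X s : ℝ) : ℝ := ∫ x in a..Real.pi, (Lam s (X - x) + Lam s (X + x))

/-- `GG(a,X,s) = ∂_s LL(a,X,s) = ∫_a^π [λ(s,X−x) + λ(s,X+x)] dx` -/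
def GG (a X s : ℝ) : ℝ := ∫ x in a..Real.pi, (lam s (X - x) + lam s (X + x))

/-- `σ` -/
def sig (m : ℕ) (a : ℝ → ℝ) : ℝ :=
  (1 / (4 * Real.pi)) * ∫ τ in (0:ℝ)..10, wt m τ * (2 * (Real.pi - a τ) + GG (a τ) 0 τ)

/-- `Φ^∞` -/
def PhiI (m : ℕ) (a : ℝ → ℝ) (X t : ℝ) : ℝ :=
  -(1 / (4 * Real.pi)) *
    ∫ τ in (0:ℝ)..10, wt m τ * (LL (a τ) X (t - τ) - LL (a τ) 0 τ + t * GG (a τ) 0 τ)

/-- `Φ_a(X,t) = Φ^∞ + σ (t − θ(t))` -/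
def Phi (m : ℕ) (a : ℝ → ℝ) (X t : ℝ) : ℝ := PhiI m a X t + sig m a * (t - th m t)

/-- profiles: monotone functions with values in `[0,π]` -/
structure Prof (a : ℝ → ℝ) : Prop where
  mono : Monotone a
  nonneg : ∀ t, 0 ≤ a t
  le_pi : ∀ t, a t ≤ Real.pi

/-- the mass `∫_0^{10} sin a` -/
def mass (a : ℝ → ℝ) : ℝ := ∫ τ in (0:ℝ)..10, Real.sin (a τ)

def clampT (t : ℝ) : ℝ := max 0 (min t 10)

/-- the fixed point map `T` -/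
def TT (m : ℕ) (a : ℝ → ℝ) (t : ℝ) : ℝ :=
  sInf ({X | 0 ≤ X ∧ X ≤ Real.pi ∧ 0 ≤ Phi m a X (clampT t)} ∪ {Real.pi})

/-! ### plane objects -/

/-- logarithmic potential `ψ_D = (1/2π) log|·| * 1_D` -/
def pot (D : Set ℂ) (x : ℂ) : ℝ := (1 / (2 * Real.pi)) * ∫ y in D, Real.log ‖x - y‖

/-- the region removed from the unit disc -/
def Aset (m : ℕ) (a : ℝ → ℝ) : Set ℂ :=
  {x | Real.exp (-10) < ‖x‖ ^ m ∧ ‖x‖ < 1 ∧ a (-(m * Real.log ‖x‖)) < |Complex.arg (x ^ m)|}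

/-- unit disc minus `Aset` -/
def D0 (m : ℕ) (a : ℝ → ℝ) : Set ℂ := Metric.ball 0 1 \ Aset m a

def Om (m : ℕ) (a : ℝ → ℝ) : ℝ := 1 / 2 - sig m a / m

/-- relative stream function, normalised to vanish at `1` -/
def FF (m : ℕ) (a : ℝ → ℝ) (x : ℂ) : ℝ :=
  pot (D0 m a) x - pot (D0 m a) 1 - (Om m a / 2) * (‖x‖ ^ 2 - 1)

/-- the point with strip coordinates `(X,t)` -/
def pt (m : ℕ) (X t : ℝ) : ℂ := Complex.exp ((-(t : ℂ) + X * Complex.I) / m)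

/-- Cauchy transform of `1_D` -/
def CT (D : Set ℂ) (x : ℂ) : ℂ := ∫ y in D, (x - y)⁻¹

/-- truncated Beurling-type integral -/
def BB (D : Set ℂ) (p : ℂ) (ρ : ℝ) : ℂ := ∫ y in D ∩ {y | 2 * ρ < ‖y - p‖}, ((y - p) ^ 2)⁻¹

end

end Pool.Agent.Helper90.VS
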