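import Pool.Agent.Helper90.VS.Defs

open MeasureTheory Set Filter Topology

namespace Pool.Agent.Helper90.VS

noncomputable section

/-- `D` is (the initial domain of) a V-state rotating with angular velocity `Ω`: `D` is bounded and
open and `ψ_D(x) - Ω|x|²/2` is constant on each connected component of `∂D`,
`ψ_D = (1/2π) log|·| * 1_D`. -/
def IsVState (D : Set ℂ) (Ω : ℝ) : Prop :=
  IsOpen D ∧ Bornology.IsBounded D ∧
    ∀ x ∈ frontier D, ∀ y ∈ connectedComponentIn (frontier D) x,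
      pot D y - Ω / 2 * ‖y‖ ^ 2 = pot D x - Ω / 2 * ‖x‖ ^ 2

/-- a regular `C¹` arc `γ : [0,1] → ℂ` with derivative `γ'`, starting at `p` -/
structure IsC1Arc (γ γ' : ℝ → ℂ) (p : ℂ) : Prop where
  start : γ 0 = p
  deriv : ∀ t ∈ Icc (0:ℝ) 1, HasDerivWithinAt γ (γ' t) (Icc 0 1) t
  cont : ContinuousOn γ' (Icc 0 1)
  regular : ∀ t ∈ Icc (0:ℝ) 1, γ' t ≠ 0
  inj : InjOn γ (Icc 0 1)

/-- `p` is a 90 degree corner of the open set `D`: near `p` the boundary of `D` is the union of two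
regular `C¹` arcs which start at `p` and have no other common point, their tangent vectors at `p`
are perpendicular, `D` contains the beginning of every ray from `p` into the open quadrant spanned
by the two tangent vectors, and closure of `D` misses the beginning of every ray from `p` that is
not in the closed quadrant. -/
def IsRightCorner (D : Set ℂ) (p : ℂ) : Prop :=
  ∃ (γ₁ γ₁' γ₂ γ₂' : ℝ → ℂ) (r : ℝ), 0 < r ∧ IsC1Arc γ₁ γ₁' p ∧ IsC1Arc γ₂ γ₂' p ∧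
    γ₁ '' Icc 0 1 ∩ γ₂ '' Icc 0 1 = {p} ∧
    frontier D ∩ Metric.ball p r = (γ₁ '' Icc 0 1 ∪ γ₂ '' Icc 0 1) ∩ Metric.ball p r ∧
    (γ₁' 0 * (starRingEnd ℂ) (γ₂' 0)).re = 0 ∧
    (∀ α β : ℝ, 0 < α → 0 < β → ∀ᶠ s : ℝ in 𝓝[>] 0, p + s * (α * γ₁' 0 + β * γ₂' 0) ∈ D) ∧
    (∀ v : ℂ, (¬ ∃ α β : ℝ, 0 ≤ α ∧ 0 ≤ β ∧ v = α * γ₁' 0 + β * γ₂' 0) →
      ∀ᶠ s : ℝ in 𝓝[>] 0, p + s * v ∉ closure D)

/-- the final domain -/
def DD (m : ℕ) (a : ℝ → ℝ) : Set ℂ :=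
  {x | ‖x‖ < 1 ∧ (‖x‖ ^ m < Real.exp (-10) ∨ FF m a x < 0)}

/-- what the fixed point argument provides -/
structure FixData (m : ℕ) (a : ℝ → ℝ) : Prop where
  hm : 2 ≤ m
  prof : Prof a
  neg : ∀ X t, 0 ≤ X → t ∈ Icc (0:ℝ) 10 → X < a t → Phi m a X t < 0
  pos : ∀ X t, X ≤ Real.pi → t ∈ Icc (0:ℝ) 10 → a t < X → 0 < Phi m a X t
  neg10 : ∀ X ∈ Icc 0 Real.pi, Phi m a X 10 < 0
  persist : ∀ X ∈ Icc 0 Real.pi, ∀ t₁ t₂, 0 < t₁ → t₁ < t₂ → t₂ ≤ 10 →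
    Phi m a X t₁ ≤ 0 → Phi m a X t₂ < 0

/-- output of the local corner lemma -/
structure LocData (a : ℝ → ℝ) (tt : ℝ) (a' : ℝ → ℝ) : Prop where
  pos : 0 < tt
  lt10 : tt < 10
  a0 : a 0 = 0
  a'0 : a' 0 = 1
  deriv : ∀ t ∈ Icc 0 tt, HasDerivWithinAt a (a' t) (Icc 0 tt) t
  cont : ContinuousOn a' (Icc 0 tt)
  apos : ∀ t ∈ Ioc 0 tt, 0 < a t

end

end Pool.Agent.Helper90.VS
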