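import Pool.Agent.Helper90.VS.Inv
import Pool.Agent.Helper90.VS.Defs2
import Pool.Agent.Helper20.VS.CTExpand
import Pool.Agent.Helper28.VS.Corner
import Pool.Agent.Helper54.VSCorner
import Pool.Agent.Helper67.VS.Rot
import Pool.Agent.Helper87.VS.FFpt
import Pool.Agent.Helper87.VS.PhiSmall
import Pool.Agent.Helper98.VS.Grad
import Pool.Agent.Helper99.VS.R7
import Pool.Agent.Helper99.VS.R8b1
import Pool.Agent.Helper99.VS.A6
import Pool.Agent.Helper99.VS.A7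

open MeasureTheory Set Filter Topology

namespace Pool.Agent.Helper90.VS

/-- the fixed point -/
theorem exists_fixData : ∃ κ > 0, ∃ m₀ : ℕ, ∀ m ≥ m₀, ∃ a, FixData m a ∧ κ ≤ mass a := by
  have hs := sSmall_pos
  have hs1 := sSmall_le
  have hpi := Real.pi_pos
  obtain ⟨x₁, hx₁, hneg⟩ := Pool.Agent.Helper87.VS.Phi_neg_small (sSmall / 2) ⟨by linarith, by linarith⟩
  set κ : ℝ := sSmall / 2 * Real.sin x₁ with hκ
  have hsin : 0 < Real.sin x₁ := Real.sin_pos_of_pos_of_lt_pi hx₁.1 (by linarith [hx₁.2])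
  have hκ0 : 0 < κ := by rw [hκ]; positivity
  have hκ5 : κ ≤ 5 := by
    have := Real.sin_le_one x₁
    rw [hκ]; nlinarith
  obtain ⟨m₁, hm₁⟩ := hneg κ hκ0
  obtain ⟨m₂, hm₂⟩ := Phi_div_anti κ hκ0
  refine ⟨κ, hκ0, max (max m₁ m₂) 1000, fun m hm => ?_⟩
  have h1 : m ≥ m₁ := le_trans (le_trans (le_max_left _ _) (le_max_left _ _)) hm
  have h2 : m ≥ m₂ := le_trans (le_trans (le_max_right _ _) (le_max_left _ _)) hm
  have h3 : 1000 ≤ m := le_trans (le_max_right _ _) hm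
  have hm1 : 1 ≤ m := by omega
  have hd : ∀ a, Prof a → κ ≤ mass a → DivAnti m a := fun a ha hmass => hm₂ m h2 a ha hmass
  obtain ⟨a, ha, hmass, hfix⟩ := Pool.Agent.Helper20.VS.exists_fixed κ hκ0 hκ5 (fun a => TT m a)
    (fun a ha hmass => ⟨TT_prof hm1 ha (hκ0.trans_le hmass) (hd a ha hmass),
      TT_mass hm1 ha hx₁.1 hx₁.2 hκ hmass (hd a ha hmass) (hm₁ m h1 a ha hmass)⟩)
    (fun a b ha hmass hb hbmass hab t _ => TT_tendsto hm1 a b ha
      (fun n => hκ0.trans_le (hmass n)) hb (hκ0.trans_le hbmass) hab t)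
  have hmass0 : 0 < mass a := hκ0.trans_le hmass
  refine ⟨a, ⟨by omega, ha, ?_, ?_, ?_, ?_⟩, hmass⟩
  · intro X t hX ht hlt
    rw [← hfix t ht] at hlt
    have := Phi_neg_of_lt_TT hX hlt
    rwa [clampT_of_mem ht] at this
  · intro X t hX ht hlt
    rw [← hfix t ht] at hlt
    have := Phi_pos_of_TT_lt hm1 ha hmass0 hX hlt
    rwa [clampT_of_mem ht] at this
  · intro X hX
    exact Pool.Agent.Helper99.VS.Phi_ten_neg m h3 a ha hmass0 X hX
  · intro X hX t₁ t₂ ht1 ht12 ht2 hn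
    exact persist_of_divAnti (hd a ha hmass) hX ht1 ht12 ht2 hn

theorem exists_locData : ∃ m₀ : ℕ, ∀ m ≥ m₀, ∃ (a : ℝ → ℝ) (tt : ℝ) (a' : ℝ → ℝ),
    FixData m a ∧ LocData a tt a' := by
  obtain ⟨κ, hκ, m₁, hm₁⟩ := exists_fixData
  obtain ⟨m₂, hm₂⟩ := Pool.Agent.Helper99.VSA.Phi_zero_upper κ hκ
  refine ⟨max m₁ m₂, fun m hm => ?_⟩
  obtain ⟨a, hF, hmass⟩ := hm₁ m (le_trans (le_max_left _ _) hm)
  have hm1 : 1 ≤ m := by have := hF.hm; omega
  have ha := hF.prof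
  have hmass0 : 0 < mass a := hκ.trans_le hmass
  obtain ⟨c₂, hc₂, δ, hδ, h9⟩ := hm₂ m (le_trans (le_max_right _ _) hm) a ha hmass
  obtain ⟨c₃, hc₃, h10⟩ := Pool.Agent.Helper99.VSA.Phi_X0_lower m hm1 a ha
  have hpt : ∀ X t : ℝ, t ∈ Icc (0:ℝ) 10 → (m:ℝ) ^ 2 * FF m a (pt m X t) = Phi m a |X| t :=
    fun X t ht => Pool.Agent.Helper87.VS.FF_pt m hm1 a ha X t ht
  have hDm := Pool.Agent.Helper98.VS.measurableSet_D0 m ha
  have hDb := Pool.Agent.Helper98.VS.isBounded_D0 m a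
  obtain ⟨HX, HT, β, C, ρ₀, hC, hρ₀, hH, hHX, hHT, hX, hT, hβ⟩ :=
    Pool.Agent.Helper98.VS.grad_expand_of m hm1 a ha
      (fun t ht => by have := hpt 0 t ht; rwa [abs_zero] at this)
      (Pool.Agent.Helper20.VS.CT_expand _ hDm hDb 1)
      (fun s ρ h1 h2 h3 => Pool.Agent.Helper20.VS.BB_scale _ hDm hDb 1 s ρ h1 h2 h3)
      (Pool.Agent.Helper99.VSA.Phi_zero_div_tendsto m hm1 ha)
  set c : ℝ := min (min (c1 * mass a) c₂) c₃ with hc
  have hc1 := c1_pos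
  have hc0 : 0 < c := by rw [hc]; exact lt_min (lt_min (by positivity) hc₂) hc₃
  have hca : c ≤ c1 * mass a := (min_le_left _ _).trans (min_le_left _ _)
  have hcb : c ≤ c₂ := (min_le_left _ _).trans (min_le_right _ _)
  have hcc : c ≤ c₃ := min_le_right _ _
  have hpi := Real.pi_pos
  have hδ' : 0 < min δ 10 := lt_min hδ (by norm_num)
  obtain ⟨tt, a', h1, h2, h3, h4, h5, h6, h7⟩ :=
    Pool.Agent.Helper54.VSCorner.local_corner (fun X t => (m:ℝ) ^ 2 * FF m a (pt m X t)) HX HT β a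
      C c ρ₀ (min δ 10) hC hc0 hρ₀ hδ' hH hHX hHT
      (by
        have := hpt 0 0 ⟨le_rfl, by norm_num⟩
        rw [abs_zero, Phi_zero_zero] at this; exact this)
      hX hT hβ ha
      (fun X t hX0 ht hlt => by
        rw [hpt X t ht, abs_of_nonneg hX0]
        exact hF.neg X t hX0 ht hlt)
      (fun X t hXpi ht hlt => by
        rw [hpt X t ht, abs_of_nonneg ((ha.nonneg t).trans hlt.le)]
        exact hF.pos X t hXpi ht hlt)
      (fun X t hXm ht => by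
        rw [hpt X t ht, hpt 0 t ht, abs_of_nonneg hXm.1, abs_zero]
        have q := Phi_X_lower m hm1 a ha 0 X t le_rfl hXm.1 hXm.2 ht
        rw [Real.cos_zero] at q
        have q2 : 0 ≤ 1 - Real.cos X := by have := Real.cos_le_one X; linarith
        exact (mul_le_mul_of_nonneg_right hca q2).trans q)
      (fun t ht => by
        rw [hpt 0 t ⟨ht.1, ht.2.trans (min_le_right _ _)⟩, abs_zero]
        have q := h9 t ⟨ht.1, ht.2.trans (min_le_left _ _)⟩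
        have q2 : c * t ^ 2 ≤ c₂ * t ^ 2 := by gcongr
        linarith)
      (fun X hX0 hX1 => by
        rw [hpt X 0 ⟨le_rfl, by norm_num⟩, abs_of_pos hX0]
        have q := h10 X hX0 hX1
        refine le_trans ?_ q
        have q3 : 0 ≤ ∫ τ in X..1, Real.sin (a τ) / (τ ^ 2 + X ^ 2 + (a τ) ^ 2) := by
          apply intervalIntegral.integral_nonneg hX1
          intro τ _
          have := sin_a_nonneg ha τ
          positivity
        gcongr)
  exact ⟨a, tt, a', hF, ⟨h1, h2, h3, h4, h5, h6, h7⟩⟩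

theorem FF_cont (m : ℕ) (a : ℝ → ℝ) (ha : Prof a) : Continuous (FF m a) :=
  continuous_iff_continuousAt.mpr
    (fun x => (Pool.Agent.Helper98.VS.FF_hasFDerivAt m a ha x).continuousAt)

theorem FF_eq (m : ℕ) (hm : 1 ≤ m) (a : ℝ → ℝ) (ha : Prof a) (x : ℂ)
    (h1 : Real.exp (-10) ≤ ‖x‖ ^ m) (h2 : ‖x‖ ≤ 1) :
    (m:ℝ) ^ 2 * FF m a x = Phi m a |Complex.arg (x ^ m)| (-(m * Real.log ‖x‖)) :=
  Pool.Agent.Helper67.VSRot.FF_eq_of m hm a
    (fun X t _ ht => Pool.Agent.Helper87.VS.FF_pt m hm a ha X t ht) x h1 h2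

theorem main_exists : ∃ m₀ : ℕ, ∀ m ≥ m₀, ∃ a : ℝ → ℝ, FixData m a ∧
    IsVState (DD m a) (Om m a) ∧ interior (closure (DD m a)) = DD m a ∧
      0 ∈ DD m a ∧ StarConvex ℝ 0 (DD m a) ∧ 1 ∈ frontier (DD m a) ∧ IsRightCorner (DD m a) 1 := by
  obtain ⟨m₀, hm₀⟩ := exists_locData
  refine ⟨m₀, fun m hm => ?_⟩
  obtain ⟨a, tt, a', hF, hL⟩ := hm₀ m hm
  have hm1 : 1 ≤ m := by have := hF.hm; omega
  have ha := hF.prof
  have hcont := FF_cont m a ha
  have heq := fun x h1 h2 => FF_eq m hm1 a ha x h1 h2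
  have hV := Pool.Agent.Helper99.VS.isVState_DD_of hF
    ⟨heq, Pool.Agent.Helper67.VSRot.null_graph m hm1 a ha, hcont⟩
  have hK := Pool.Agent.Helper28.VS.corner_DD_of ⟨hcont, heq⟩ hF tt a' hL
  exact ⟨a, hF, hV.1, hV.2.1, hV.2.2.1, hV.2.2.2, hK.1, hK.2⟩

end Pool.Agent.Helper90.VS
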