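import Pool.Agent.Helper90.VS.TMap
import Pool.Agent.Helper20.VS.FixProf

open MeasureTheory Set Filter Topology

namespace Pool.Agent.Helper90.VS

noncomputable def c1 : ℝ := Real.exp (-20) / (2 * Real.pi * (Real.cosh 10 + 1))

theorem c1_pos : 0 < c1 := by
  unfold c1
  have := Real.cosh_pos 10
  have := Real.pi_pos
  have := Real.exp_pos (-20)
  positivity

theorem c1_le_one : c1 ≤ 1 := by
  unfold c1
  have h1 := Real.cosh_pos 10
  have h2 := Real.pi_gt_three
  have h3 : Real.exp (-20) ≤ 1 := Real.exp_le_one_iff.mpr (by norm_num)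
  rw [div_le_one (by positivity)]
  nlinarith

/-- the small time -/
noncomputable def sSmall : ℝ := c1 ^ 2 / 80

theorem sSmall_pos : 0 < sSmall := by unfold sSmall; have := c1_pos; positivity

theorem sSmall_le : sSmall ≤ 1 := by
  unfold sSmall
  have h1 := c1_pos
  have h2 := c1_le_one
  have : c1 ^ 2 ≤ 1 := by nlinarith
  linarith

theorem eta_sSmall : 2 * √10 * √(2 * sSmall) ≤ c1 := by
  unfold sSmall
  have h1 := c1_pos
  have e : (2 * √10 * √(2 * (c1 ^ 2 / 80))) = c1 := by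
    rw [mul_assoc, ← Real.sqrt_mul (by norm_num)]
    have : (10 * (2 * (c1 ^ 2 / 80))) = (c1 / 2) ^ 2 := by ring
    rw [this, Real.sqrt_sq (by positivity)]; ring
  rw [e]

/-- the Lipschitz bound for `cos ∘ T` -/
theorem cos_TT_lip {m : ℕ} (hm : 1 ≤ m) {a : ℝ → ℝ} (ha : Prof a) (hmass : 0 < mass a)
    (hd : DivAnti m a) {t₁ t₂ : ℝ} (h0 : 0 ≤ t₁) (h12 : t₁ ≤ t₂) (h2 : t₂ ≤ sSmall) :
    mass a * (Real.cos (TT m a t₁) - Real.cos (TT m a t₂)) ≤ t₂ - t₁ := by
  have hprof := TT_prof hm ha hmass hd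
  have hs1 := sSmall_le
  have ht1 : t₁ ∈ Icc (0:ℝ) 10 := ⟨h0, by linarith⟩
  have ht2 : t₂ ∈ Icc (0:ℝ) 10 := ⟨by linarith, by linarith⟩
  rcases (hprof.mono h12).eq_or_lt with h | h
  · rw [h]; simp; exact h12
  set T₁ := TT m a t₁ with hT1
  set T₂ := TT m a t₂ with hT2
  have hT1n : 0 ≤ T₁ := TT_nonneg m a t₁
  have hT2p : T₂ ≤ Real.pi := TT_le_pi m a t₂
  have key : ∀ X₁ X₂, T₁ < X₁ → X₁ ≤ X₂ → X₂ < T₂ →
      mass a * (Real.cos X₁ - Real.cos X₂) ≤ t₂ - t₁ := by
    intro X₁ X₂ hx1 hx12 hx2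
    have hX1pi : X₁ ≤ Real.pi := by linarith
    have hX2pi : X₂ ≤ Real.pi := by linarith
    have hX1 : 0 ≤ X₁ := by linarith
    have p1 := Phi_pos_of_TT_lt hm ha hmass hX1pi hx1
    have p2 := Phi_neg_of_lt_TT (by linarith : 0 ≤ X₂) hx2
    rw [clampT_of_mem ht1] at p1
    rw [clampT_of_mem ht2] at p2
    have q1 := Phi_X_lower m hm a ha X₁ X₂ t₁ hX1 hx12 hX2pi ht1
    have q2 := Phi_t_upper' m hm ha (X := X₂) ⟨by linarith, hX2pi⟩ h0 h12 h2
    have q3 := eta_sSmall
    have q4 : 2 * √10 * √(2 * sSmall) * (t₂ - t₁) ≤ c1 * (t₂ - t₁) :=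
      mul_le_mul_of_nonneg_right q3 (by linarith)
    change c1 * mass a * (Real.cos X₁ - Real.cos X₂) ≤ _ at q1
    have q5 : c1 * (mass a * (Real.cos X₁ - Real.cos X₂)) ≤ c1 * (t₂ - t₁) := by
      rw [← mul_assoc]; linarith
    exact le_of_mul_le_mul_left q5 c1_pos
  have hlim : Tendsto (fun ε : ℝ => mass a * (Real.cos (T₁ + ε) - Real.cos (T₂ - ε))) (𝓝[>] 0)
      (𝓝 (mass a * (Real.cos T₁ - Real.cos T₂))) := by
    have hc : Continuous (fun ε : ℝ => mass a * (Real.cos (T₁ + ε) - Real.cos (T₂ - ε))) := by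
      fun_prop
    have := (hc.tendsto 0).mono_left (nhdsWithin_le_nhds (s := Ioi (0:ℝ)))
    simpa using this
  refine le_of_tendsto hlim ?_
  have hgap : 0 < (T₂ - T₁) / 2 := by linarith
  filter_upwards [Ioo_mem_nhdsGT hgap] with ε hε
  exact key _ _ (by linarith [hε.1]) (by linarith [hε.2]) (by linarith [hε.1])

theorem sin_ge_of_mem {x T : ℝ} (hx0 : 0 ≤ x) (h1 : x ≤ T) (h2 : T ≤ Real.pi - x) :
    Real.sin x ≤ Real.sin T := by
  have hpi := Real.pi_pos
  rcases le_total T (Real.pi / 2) with h | h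
  · exact Real.sin_le_sin_of_le_of_le_pi_div_two (by linarith) h h1
  · rw [← Real.sin_pi_sub T]
    exact Real.sin_le_sin_of_le_of_le_pi_div_two (by linarith) (by linarith) (by linarith)

theorem mass_ge_sub {a : ℝ → ℝ} (ha : Prof a) {u v c : ℝ} (h0 : 0 ≤ u) (huv : u ≤ v) (hv : v ≤ 10)
    (h : ∀ t ∈ Icc u v, c ≤ Real.sin (a t)) : c * (v - u) ≤ mass a := by
  have e : c * (v - u) = ∫ _ in u..v, c := by
    rw [intervalIntegral.integral_const, smul_eq_mul]; ring
  rw [e]
  have h1 : (∫ _ in u..v, c) ≤ ∫ t in u..v, Real.sin (a t) :=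
    intervalIntegral.integral_mono_on huv intervalIntegrable_const (intble_sin ha u v) h
  refine h1.trans ?_
  unfold mass
  have h2 := intervalIntegral.integral_add_adjacent_intervals (intble_sin ha 0 u) (intble_sin ha u v)
  have h3 := intervalIntegral.integral_add_adjacent_intervals (intble_sin ha 0 v) (intble_sin ha v 10)
  have h4 : 0 ≤ ∫ t in (0:ℝ)..u, Real.sin (a t) :=
    intervalIntegral.integral_nonneg h0 (fun t _ => sin_a_nonneg ha t)
  have h5 : 0 ≤ ∫ t in v..10, Real.sin (a t) :=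
    intervalIntegral.integral_nonneg hv (fun t _ => sin_a_nonneg ha t)
  linarith

/-- invariance of the mass constraint -/
theorem TT_mass {m : ℕ} (hm : 1 ≤ m) {a : ℝ → ℝ} (ha : Prof a) {κ x₁ : ℝ} (hx0 : 0 < x₁)
    (hx1 : x₁ ≤ Real.pi / 4) (hκ : κ = sSmall / 2 * Real.sin x₁) (hmass : κ ≤ mass a)
    (hd : DivAnti m a) (hneg : Phi m a x₁ (sSmall / 2) < 0) : κ ≤ mass (TT m a) := by
  have hpi := Real.pi_pos
  have hs := sSmall_pos
  have hs1 := sSmall_le
  have hsin : 0 < Real.sin x₁ := Real.sin_pos_of_pos_of_lt_pi hx0 (by linarith)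
  have hκ0 : 0 < κ := by rw [hκ]; positivity
  have hmass0 : 0 < mass a := hκ0.trans_le hmass
  have hprof := TT_prof hm ha hmass0 hd
  have hT0 : TT m a 0 = 0 := by
    apply le_antisymm _ (TT_nonneg m a 0)
    apply TT_le_of_nonneg le_rfl hpi.le
    rw [clampT_of_mem ⟨le_rfl, by norm_num⟩, Phi_zero_zero]
  rcases le_or_gt (TT m a sSmall) (3 * Real.pi / 4) with hcase | hcase
  · -- case 1
    have h1 : x₁ ≤ TT m a (sSmall / 2) := by
      apply le_TT_of_neg hm ha hmass0 (by linarith)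
      rw [clampT_of_mem ⟨by linarith, by linarith⟩]; exact hneg
    have h2 := mass_ge_sub hprof (u := sSmall / 2) (v := sSmall) (c := Real.sin x₁) (by linarith)
      (by linarith) (by linarith) (fun t ht => by
        apply sin_ge_of_mem hx0.le (h1.trans (hprof.mono ht.1))
        have := hprof.mono ht.2
        linarith)
    rw [hκ]; linarith
  · -- case 2
    set g : ℝ → ℝ := fun t => Real.cos (TT m a t) with hg
    have hanti : ∀ t₁ t₂, t₁ ≤ t₂ → g t₂ ≤ g t₁ := fun t₁ t₂ h =>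
      Real.cos_le_cos_of_nonneg_of_le_pi (TT_nonneg m a t₁) (TT_le_pi m a t₂) (hprof.mono h)
    have hlip : ∀ t₁ t₂, 0 ≤ t₁ → t₁ ≤ t₂ → t₂ ≤ sSmall → mass a * (g t₁ - g t₂) ≤ t₂ - t₁ :=
      fun t₁ t₂ h0 h12 h2 => cos_TT_lip hm ha hmass0 hd h0 h12 h2
    have hcont : ContinuousOn g (Icc 0 sSmall) := by
      have hL : LipschitzOnWith (Real.toNNReal (1 / mass a)) g (Icc 0 sSmall) := by
        have hsym : ∀ x ∈ Icc (0:ℝ) sSmall, ∀ y ∈ Icc (0:ℝ) sSmall, x ≤ y →
            |g x - g y| ≤ 1 / mass a * |x - y| := by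
          intro x hx y hy hxy
          have h1 := hlip x y hx.1 hxy hy.2
          have h2 := hanti x y hxy
          rw [abs_of_nonneg (by linarith), abs_sub_comm, abs_of_nonneg (by linarith : 0 ≤ y - x),
            one_div, inv_mul_eq_div, le_div_iff₀ hmass0]
          linarith
        apply LipschitzOnWith.of_dist_le_mul
        intro x hx y hy
        rw [Real.coe_toNNReal _ (by positivity), Real.dist_eq, Real.dist_eq]
        rcases le_total x y with hxy | hxy
        · exact hsym x hx y hy hxy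
        · rw [abs_sub_comm (g x), abs_sub_comm x]; exact hsym y hy x hx hxy
      exact hL.continuousOn
    have hg0 : g 0 = 1 := by simp [hg, hT0]
    have hr : 0 < √2 / 2 := by positivity
    have hr1 : √2 / 2 ≤ 1 := by
      have : √2 ≤ 2 := by
        rw [Real.sqrt_le_left (by norm_num)]; norm_num
      linarith
    have hgs : g sSmall ≤ -(√2 / 2) := by
      have h1 : Real.cos (TT m a sSmall) ≤ Real.cos (3 * Real.pi / 4) :=
        Real.cos_le_cos_of_nonneg_of_le_pi (by positivity) (TT_le_pi m a _) hcase.le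
      have h2 : Real.cos (3 * Real.pi / 4) = -(√2 / 2) := by
        rw [show 3 * Real.pi / 4 = Real.pi - Real.pi / 4 by ring, Real.cos_pi_sub,
          Real.cos_pi_div_four]
      rw [h2] at h1; exact h1
    have hivt := intermediate_value_Icc' hs.le hcont
    obtain ⟨t₁, ht1, hgt1⟩ := hivt (⟨by linarith, by rw [hg0]; exact hr1⟩ :
      √2 / 2 ∈ Icc (g sSmall) (g 0))
    obtain ⟨t₂, ht2, hgt2⟩ := hivt (⟨hgs, by rw [hg0]; linarith⟩ :
      -(√2 / 2) ∈ Icc (g sSmall) (g 0))
    have h12 : t₁ ≤ t₂ := by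
      by_contra hc
      have := hanti t₂ t₁ (not_le.mp hc).le
      rw [hgt1, hgt2] at this
      linarith
    have h3 := hlip t₁ t₂ ht1.1 h12 ht2.2
    rw [hgt1, hgt2] at h3
    have hsq : (√2) ^ 2 = 2 := Real.sq_sqrt (by norm_num)
    have h4 := mass_ge_sub hprof (u := t₁) (v := t₂) (c := √2 / 2) ht1.1 h12
      (by linarith [ht2.2]) (fun t ht => by
        have g1 := hanti t₁ t ht.1
        have g2 := hanti t t₂ ht.2
        rw [hgt1] at g1
        rw [hgt2] at g2
        have g3 : Real.cos (TT m a t) ^ 2 ≤ 1 / 2 := by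
          have g1' : Real.cos (TT m a t) ≤ √2 / 2 := g1
          have g2' : -(√2 / 2) ≤ Real.cos (TT m a t) := g2
          nlinarith
        have g4 := Real.sin_sq_add_cos_sq (TT m a t)
        have g5 := sin_a_nonneg hprof t
        by_contra hc
        push Not at hc
        nlinarith)
    have h5 : mass a ≤ √2 / 2 * (t₂ - t₁) := by nlinarith
    linarith

end Pool.Agent.Helper90.VS
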