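import Pool.Agent.Helper90.VS.Defs

open MeasureTheory Set Filter Topology

namespace Pool.Agent.Helper90.VS

/-- `cosh s - cos x > 0` for `s ≠ 0` -/
theorem den_pos {s : ℝ} (hs : s ≠ 0) (x : ℝ) : 0 < Real.cosh s - Real.cos x := by
  have h1 : 1 < Real.cosh s := Real.one_lt_cosh.mpr hs
  have h2 := Real.cos_le_one x
  linarith

theorem den_pos' (s : ℝ) {x : ℝ} (hx : Real.cos x < 1) : 0 < Real.cosh s - Real.cos x := by
  have h1 : 1 ≤ Real.cosh s := Real.one_le_cosh s
  linarith

theorem Lam_neg (s x : ℝ) : Lam (-s) x = Lam s x := by simp [Lam]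

theorem lam_neg (s x : ℝ) : lam (-s) x = -lam s x := by simp [lam, neg_div]

theorem Lam_negx (s x : ℝ) : Lam s (-x) = Lam s x := by simp [Lam]

theorem lam_negx (s x : ℝ) : lam s (-x) = lam s x := by simp [lam]

theorem LL_neg (a X s : ℝ) : LL a X (-s) = LL a X s := by simp [LL, Lam_neg]

theorem GG_neg (a X s : ℝ) : GG a X (-s) = -GG a X s := by
  unfold GG
  rw [← intervalIntegral.integral_neg]
  congr 1; ext x
  rw [lam_neg, lam_neg]; ring

theorem LL_negX (a X s : ℝ) : LL a (-X) s = LL a X s := by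
  unfold LL
  congr 1; ext x
  have h1 : -X - x = -(X + x) := by ring
  have h2 : -X + x = -(X - x) := by ring
  rw [h1, h2, Lam_negx, Lam_negx]; ring

/-- continuity of `Lam` away from `s = 0` -/
theorem continuous_Lam_x {s : ℝ} (hs : s ≠ 0) : Continuous (fun x => Lam s x) := by
  unfold Lam
  refine Continuous.log (by fun_prop) (fun x => (den_pos hs x).ne')

theorem continuous_lam_x {s : ℝ} (hs : s ≠ 0) : Continuous (fun x => lam s x) := by
  unfold lam
  exact Continuous.div (by fun_prop) (by fun_prop) (fun x => (den_pos hs x).ne')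

theorem lam_zero (x : ℝ) : lam 0 x = 0 := by simp [lam]

theorem one_add_sq_le_cosh (s : ℝ) : 1 + s ^ 2 / 2 ≤ Real.cosh s := by
  have h1 : Real.cosh s = 1 + 2 * Real.sinh (s / 2) ^ 2 := by
    have := Real.cosh_two_mul (s / 2)
    have h2 := Real.cosh_sq (s / 2)
    rw [show 2 * (s / 2) = s by ring] at this
    linarith
  have h3 : |s / 2| ≤ |Real.sinh (s / 2)| := by
    rw [Real.abs_sinh]
    exact Real.self_le_sinh_iff.mpr (abs_nonneg _)
  have h4 : (s / 2) ^ 2 ≤ Real.sinh (s / 2) ^ 2 := sq_le_sq.mpr h3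
  rw [h1]; nlinarith

theorem den_lower (s x : ℝ) : s ^ 2 / 2 ≤ Real.cosh s - Real.cos x := by
  have h2 := one_add_sq_le_cosh s
  have h3 := Real.cos_le_one x
  linarith

theorem Lam_lower {s : ℝ} (hs : s ≠ 0) (x : ℝ) : 2 * Real.log s - Real.log 2 ≤ Lam s x := by
  have h1 : s ^ 2 / 2 ≤ Real.cosh s - Real.cos x := den_lower s x
  have h4 : 0 < s ^ 2 / 2 := by positivity
  have h5 := Real.log_le_log h4 h1
  have h6 : Real.log (s ^ 2 / 2) = 2 * Real.log s - Real.log 2 := by
    rw [Real.log_div (by positivity) (by norm_num), Real.log_pow]; norm_num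
  rw [h6] at h5
  exact h5

theorem cosh_le_exp_abs (s : ℝ) : Real.cosh s ≤ Real.exp |s| := by
  rw [← Real.cosh_abs, Real.cosh_eq]
  have : Real.exp (-|s|) ≤ Real.exp |s| := Real.exp_le_exp.mpr (by have := abs_nonneg s; linarith)
  linarith

theorem Lam_upper {s : ℝ} (hs : s ≠ 0) (x : ℝ) : Lam s x ≤ |s| + Real.log 2 := by
  have h1 : Real.cosh s - Real.cos x ≤ 2 * Real.exp |s| := by
    have h2 : Real.cosh s ≤ Real.exp |s| := cosh_le_exp_abs s
    have h3 := Real.neg_one_le_cos x
    have h4 : 1 ≤ Real.exp |s| := Real.one_le_exp (abs_nonneg s)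
    linarith
  have h5 := Real.log_le_log (den_pos hs x) h1
  rw [Real.log_mul (by norm_num) (Real.exp_pos _).ne', Real.log_exp] at h5
  unfold Lam
  linarith

theorem log_two_le_one : Real.log 2 ≤ 1 := by
  have := Real.log_two_lt_d9
  linarith

theorem Lam_abs_le {s : ℝ} (hs : s ≠ 0) (x : ℝ) : |Lam s x| ≤ |s| + 2 * |Real.log s| + 1 := by
  have h1 := Lam_lower hs x
  have h2 := Lam_upper hs x
  have h3 := log_two_le_one
  have h4 := neg_abs_le (Real.log s)
  have h5 := le_abs_self (Real.log s)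
  have h6 := abs_nonneg s
  have h7 := abs_nonneg (Real.log s)
  rw [abs_le]
  constructor <;> linarith

theorem lam_abs_le {s : ℝ} (hs : s ≠ 0) (x : ℝ) : |lam s x| ≤ 1 + 2 / s ^ 2 := by
  unfold lam
  have hd := den_pos hs x
  rw [abs_div, abs_of_pos hd, div_le_iff₀ hd]
  have h1 : |Real.sinh s| ≤ Real.cosh s := by
    have := Real.cosh_sq s
    exact abs_le_of_sq_le_sq (by nlinarith) (Real.cosh_pos s).le
  have h2 := den_lower s x
  have h3 : (0:ℝ) < s ^ 2 := by positivity
  have h4 : 1 ≤ 2 / s ^ 2 * (Real.cosh s - Real.cos x) := by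
    rw [div_mul_eq_mul_div, le_div_iff₀ h3]; linarith
  have h5 := Real.cos_le_one x
  nlinarith

/-- `∂_s λ` -/
noncomputable def lam' (s x : ℝ) : ℝ :=
  (1 - Real.cosh s * Real.cos x) / (Real.cosh s - Real.cos x) ^ 2

theorem lam'_abs_le {s : ℝ} (hs : s ≠ 0) (x : ℝ) : |lam' s x| ≤ 2 / s ^ 2 := by
  unfold lam'
  have hd := den_pos hs x
  have h0 : (0:ℝ) < (Real.cosh s - Real.cos x) ^ 2 := by positivity
  rw [abs_div, abs_of_pos h0, div_le_iff₀ h0]
  have hC := Real.one_le_cosh s
  have h5 := Real.cos_le_one x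
  have h6 := Real.neg_one_le_cos x
  have h1 : |1 - Real.cosh s * Real.cos x| ≤ Real.cosh s - Real.cos x := by
    rw [abs_le]; constructor <;> nlinarith
  have h2 := den_lower s x
  have h3 : (0:ℝ) < s ^ 2 := by positivity
  have h4 : 1 ≤ 2 / s ^ 2 * (Real.cosh s - Real.cos x) := by
    rw [div_mul_eq_mul_div, le_div_iff₀ h3]; linarith
  calc |1 - Real.cosh s * Real.cos x| ≤ 1 * (Real.cosh s - Real.cos x) := by linarith
    _ ≤ (2 / s ^ 2 * (Real.cosh s - Real.cos x)) * (Real.cosh s - Real.cos x) := by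
        apply mul_le_mul_of_nonneg_right h4 hd.le
    _ = 2 / s ^ 2 * (Real.cosh s - Real.cos x) ^ 2 := by ring

theorem hasDerivAt_Lam {s : ℝ} (hs : s ≠ 0) (x : ℝ) :
    HasDerivAt (fun s => Lam s x) (lam s x) s := by
  unfold Lam lam
  exact ((Real.hasDerivAt_cosh s).sub_const _).log (den_pos hs x).ne'

theorem hasDerivAt_lam {s : ℝ} (hs : s ≠ 0) (x : ℝ) :
    HasDerivAt (fun s => lam s x) (lam' s x) s := by
  unfold lam lam'
  have h := (Real.hasDerivAt_sinh s).div ((Real.hasDerivAt_cosh s).sub_const (Real.cos x))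
    (den_pos hs x).ne'
  refine h.congr_deriv ?_
  have h2 := Real.cosh_sq s
  congr 1
  nlinarith

theorem continuous_lam'_x {s : ℝ} (hs : s ≠ 0) : Continuous (fun x => lam' s x) := by
  unfold lam'
  exact Continuous.div (by fun_prop) (by fun_prop) (fun x => (pow_pos (den_pos hs x) 2).ne')

theorem ball_ne_zero {s s' : ℝ} (hs : s ≠ 0) (h : s' ∈ Metric.ball s (|s| / 2)) :
    |s| / 2 < |s'| ∧ s' ≠ 0 := by
  rw [Metric.mem_ball, Real.dist_eq] at h
  have h1 : |s| - |s'| ≤ |s' - s| := by
    have := abs_sub_abs_le_abs_sub s s'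
    rwa [abs_sub_comm] at this
  have h2 : 0 < |s| := abs_pos.mpr hs
  have h3 : |s| / 2 < |s'| := by linarith
  exact ⟨h3, fun h0 => by rw [h0, abs_zero] at h3; linarith⟩

theorem hasDerivAt_LL {s : ℝ} (hs : s ≠ 0) (a X : ℝ) :
    HasDerivAt (fun s => LL a X s) (GG a X s) s := by
  unfold LL GG
  have hpos : 0 < |s| / 2 := by have := abs_pos.mpr hs; linarith
  have key := intervalIntegral.hasDerivAt_integral_of_dominated_loc_of_deriv_le
    (μ := volume) (a := a) (b := Real.pi) (x₀ := s) (s := Metric.ball s (|s| / 2))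
    (F := fun s x => Lam s (X - x) + Lam s (X + x))
    (F' := fun s x => lam s (X - x) + lam s (X + x))
    (bound := fun _ => 2 * (1 + 2 / (|s| / 2) ^ 2))
    (Metric.ball_mem_nhds s hpos) ?_ ?_ ?_ ?_ ?_ ?_
  · exact key.2
  · filter_upwards [Metric.ball_mem_nhds s hpos] with s' hs'
    have := (ball_ne_zero hs hs').2
    exact (((continuous_Lam_x this).comp (by fun_prop)).add
      ((continuous_Lam_x this).comp (by fun_prop))).aestronglyMeasurable
  · exact (((continuous_Lam_x hs).comp (by fun_prop)).add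
      ((continuous_Lam_x hs).comp (by fun_prop))).intervalIntegrable _ _
  · exact (((continuous_lam_x hs).comp (by fun_prop)).add
      ((continuous_lam_x hs).comp (by fun_prop))).aestronglyMeasurable
  · refine Eventually.of_forall (fun x _ s' hs' => ?_)
    obtain ⟨h1, h2⟩ := ball_ne_zero hs hs'
    have h3 : 2 / s' ^ 2 ≤ 2 / (|s| / 2) ^ 2 := by
      apply div_le_div_of_nonneg_left (by norm_num) (by positivity)
      rw [← sq_abs s']
      exact pow_le_pow_left₀ hpos.le h1.le 2
    have h4 := lam_abs_le h2 (X - x)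
    have h5 := lam_abs_le h2 (X + x)
    rw [Real.norm_eq_abs]
    calc |lam s' (X - x) + lam s' (X + x)| ≤ |lam s' (X - x)| + |lam s' (X + x)| := abs_add_le _ _
      _ ≤ _ := by linarith
  · exact intervalIntegrable_const
  · refine Eventually.of_forall (fun x _ s' hs' => ?_)
    obtain ⟨h1, h2⟩ := ball_ne_zero hs hs'
    exact (hasDerivAt_Lam h2 _).add (hasDerivAt_Lam h2 _)

theorem hasDerivAt_GG' {s : ℝ} (hs : s ≠ 0) (a X : ℝ) :
    HasDerivAt (fun s => GG a X s) (∫ x in a..Real.pi, (lam' s (X - x) + lam' s (X + x))) s := by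
  unfold GG
  have hpos : 0 < |s| / 2 := by have := abs_pos.mpr hs; linarith
  have key := intervalIntegral.hasDerivAt_integral_of_dominated_loc_of_deriv_le
    (μ := volume) (a := a) (b := Real.pi) (x₀ := s) (s := Metric.ball s (|s| / 2))
    (F := fun s x => lam s (X - x) + lam s (X + x))
    (F' := fun s x => lam' s (X - x) + lam' s (X + x))
    (bound := fun _ => 2 * (2 / (|s| / 2) ^ 2))
    (Metric.ball_mem_nhds s hpos) ?_ ?_ ?_ ?_ ?_ ?_
  · exact key.2
  · filter_upwards [Metric.ball_mem_nhds s hpos] with s' hs'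
    have := (ball_ne_zero hs hs').2
    exact (((continuous_lam_x this).comp (by fun_prop)).add
      ((continuous_lam_x this).comp (by fun_prop))).aestronglyMeasurable
  · exact (((continuous_lam_x hs).comp (by fun_prop)).add
      ((continuous_lam_x hs).comp (by fun_prop))).intervalIntegrable _ _
  · exact (((continuous_lam'_x hs).comp (by fun_prop)).add
      ((continuous_lam'_x hs).comp (by fun_prop))).aestronglyMeasurable
  · refine Eventually.of_forall (fun x _ s' hs' => ?_)
    obtain ⟨h1, h2⟩ := ball_ne_zero hs hs'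
    have h3 : 2 / s' ^ 2 ≤ 2 / (|s| / 2) ^ 2 := by
      apply div_le_div_of_nonneg_left (by norm_num) (by positivity)
      rw [← sq_abs s']
      exact pow_le_pow_left₀ hpos.le h1.le 2
    have h4 := lam'_abs_le h2 (X - x)
    have h5 := lam'_abs_le h2 (X + x)
    rw [Real.norm_eq_abs]
    calc |lam' s' (X - x) + lam' s' (X + x)| ≤ |lam' s' (X - x)| + |lam' s' (X + x)| :=
          abs_add_le _ _
      _ ≤ _ := by linarith
  · exact intervalIntegrable_const
  · refine Eventually.of_forall (fun x _ s' hs' => ?_)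
    obtain ⟨h1, h2⟩ := ball_ne_zero hs hs'
    exact (hasDerivAt_lam h2 _).add (hasDerivAt_lam h2 _)

theorem hasDerivAt_sin_div {s : ℝ} (hs : s ≠ 0) (x : ℝ) :
    HasDerivAt (fun x => -(Real.sin x / (Real.cosh s - Real.cos x))) (lam' s x) x := by
  have h := ((Real.hasDerivAt_sin x).div ((Real.hasDerivAt_cos x).const_sub (Real.cosh s))
    (den_pos hs x).ne').neg
  unfold lam'
  refine h.congr_deriv ?_
  rw [← neg_div]
  congr 1
  have := Real.sin_sq_add_cos_sq x
  nlinarith

theorem hasDerivAt_GG {s : ℝ} (hs : s ≠ 0) (a : ℝ) :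
    HasDerivAt (fun s => GG a 0 s) (2 * Real.sin a / (Real.cosh s - Real.cos a)) s := by
  have h := hasDerivAt_GG' hs a 0
  convert h using 1
  have h1 : ∀ x, lam' s (0 - x) + lam' s (0 + x) = 2 * lam' s x := by
    intro x
    rw [zero_sub, zero_add]
    have : lam' s (-x) = lam' s x := by simp [lam']
    rw [this]; ring
  simp only [h1]
  rw [intervalIntegral.integral_const_mul]
  rw [intervalIntegral.integral_eq_sub_of_hasDerivAt (fun x _ => hasDerivAt_sin_div hs x)
    ((continuous_lam'_x hs).intervalIntegrable _ _)]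
  simp; ring

theorem continuousAt_GG {s : ℝ} (hs : s ≠ 0) (a X : ℝ) : ContinuousAt (fun s => GG a X s) s :=
  (hasDerivAt_GG' hs a X).continuousAt

theorem continuousAt_LL {s : ℝ} (hs : s ≠ 0) (a X : ℝ) : ContinuousAt (fun s => LL a X s) s :=
  (hasDerivAt_LL hs a X).continuousAt

theorem LL_sub (a X : ℝ) {v₁ v₂ : ℝ} (h1 : 0 < v₁) (h2 : 0 < v₂) :
    LL a X v₂ - LL a X v₁ = ∫ v in v₁..v₂, GG a X v := by
  have h0 : ∀ v ∈ uIcc v₁ v₂, v ≠ 0 := by
    intro v hv
    have : 0 < v := lt_of_lt_of_le (lt_min h1 h2) hv.1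
    exact this.ne'
  rw [intervalIntegral.integral_eq_sub_of_hasDerivAt (fun v hv => hasDerivAt_LL (h0 v hv) a X)]
  exact ContinuousOn.intervalIntegrable
    (fun v hv => (continuousAt_GG (h0 v hv) a X).continuousWithinAt)

theorem GG_sub (a : ℝ) {v₁ v₂ : ℝ} (h1 : 0 < v₁) (h2 : 0 < v₂) :
    GG a 0 v₂ - GG a 0 v₁ = ∫ v in v₁..v₂, 2 * Real.sin a / (Real.cosh v - Real.cos a) := by
  have h0 : ∀ v ∈ uIcc v₁ v₂, v ≠ 0 := by
    intro v hv
    have : 0 < v := lt_of_lt_of_le (lt_min h1 h2) hv.1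
    exact this.ne'
  rw [intervalIntegral.integral_eq_sub_of_hasDerivAt (fun v hv => hasDerivAt_GG (h0 v hv) a)]
  exact ContinuousOn.intervalIntegrable
    (fun v hv => (ContinuousAt.div (f := fun _ : ℝ => 2 * Real.sin a)
      (g := fun v : ℝ => Real.cosh v - Real.cos a) (by fun_prop) (by fun_prop)
      (den_pos (h0 v hv) a).ne').continuousWithinAt)

theorem lam_nonneg {s : ℝ} (hs : 0 ≤ s) (x : ℝ) : 0 ≤ lam s x := by
  unfold lam
  have h1 : 0 ≤ Real.sinh s := Real.sinh_nonneg_iff.mpr hs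
  have h2 : 0 ≤ Real.cosh s - Real.cos x := by
    have := Real.one_le_cosh s
    have := Real.cos_le_one x
    linarith
  positivity

theorem continuous_lam_all (s : ℝ) : Continuous (fun x => lam s x) ∨ s = 0 := by
  by_cases h : s = 0
  · right; exact h
  · left; exact continuous_lam_x h

theorem intervalIntegrable_lam (s X a b : ℝ) :
    IntervalIntegrable (fun x => lam s (X - x) + lam s (X + x)) volume a b := by
  by_cases h : s = 0
  · subst h; simp [lam_zero]
  · exact (((continuous_lam_x h).comp (by fun_prop)).add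
      ((continuous_lam_x h).comp (by fun_prop))).intervalIntegrable _ _

theorem GG_nonneg {s : ℝ} (hs : 0 ≤ s) {a : ℝ} (ha : a ≤ Real.pi) (X : ℝ) : 0 ≤ GG a X s := by
  unfold GG
  exact intervalIntegral.integral_nonneg ha (fun x _ => add_nonneg (lam_nonneg hs _) (lam_nonneg hs _))

/-- monotonicity of `GG` in `a` -/
theorem GG_le_zero {s : ℝ} (hs : 0 ≤ s) {a : ℝ} (ha0 : 0 ≤ a) (X : ℝ) :
    GG a X s ≤ GG 0 X s := by
  unfold GG
  rw [← intervalIntegral.integral_add_adjacent_intervals (a := 0) (b := a) (c := Real.pi)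
    (intervalIntegrable_lam _ _ _ _) (intervalIntegrable_lam _ _ _ _)]
  have : 0 ≤ ∫ x in (0:ℝ)..a, (lam s (X - x) + lam s (X + x)) :=
    intervalIntegral.integral_nonneg ha0 (fun x _ => add_nonneg (lam_nonneg hs _) (lam_nonneg hs _))
  linarith

/-- general periodic difference lemma -/
theorem per_diff (g : ℝ → ℝ) (hg : Continuous g) (hp : Function.Periodic g (2 * Real.pi))
    (a X₁ X₂ : ℝ) :
    (∫ x in a..Real.pi, (g (X₁ - x) + g (X₁ + x))) - (∫ x in a..Real.pi, (g (X₂ - x) + g (X₂ + x)))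
      = ∫ y in X₁..X₂, (g (y + a) - g (y - a)) := by
  have hi : ∀ u v : ℝ, IntervalIntegrable g volume u v := fun u v => hg.intervalIntegrable u v
  have form : ∀ X : ℝ, (∫ x in a..Real.pi, (g (X - x) + g (X + x)))
      = (∫ u in (-Real.pi)..Real.pi, g u) - ∫ u in (X - a)..(X + a), g u := by
    intro X
    have c1 : Continuous (fun x => g (X - x)) := hg.comp (by fun_prop)
    have c2 : Continuous (fun x => g (X + x)) := hg.comp (by fun_prop)
    rw [intervalIntegral.integral_add (c1.intervalIntegrable _ _) (c2.intervalIntegrable _ _),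
      intervalIntegral.integral_comp_sub_left (fun u => g u) X,
      intervalIntegral.integral_comp_add_left (fun u => g u) X]
    have h1 : (∫ u in (X - Real.pi)..(X + Real.pi), g u) = ∫ u in (-Real.pi)..Real.pi, g u := by
      have := hp.intervalIntegral_add_eq (X - Real.pi) (-Real.pi)
      rw [show X - Real.pi + 2 * Real.pi = X + Real.pi by ring,
        show -Real.pi + 2 * Real.pi = Real.pi by ring] at this
      exact this
    rw [← h1]
    have h2 := intervalIntegral.integral_add_adjacent_intervals (hi (X - Real.pi) (X - a))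
      (hi (X - a) (X + a))
    have h3 := intervalIntegral.integral_add_adjacent_intervals (hi (X - Real.pi) (X + a))
      (hi (X + a) (X + Real.pi))
    linarith
  rw [form, form]
  have c1 : Continuous (fun x => g (x + a)) := hg.comp (by fun_prop)
  have c2 : Continuous (fun x => g (x - a)) := hg.comp (by fun_prop)
  rw [intervalIntegral.integral_sub (c1.intervalIntegrable _ _) (c2.intervalIntegrable _ _),
    intervalIntegral.integral_comp_add_right (fun u => g u) a,
    intervalIntegral.integral_comp_sub_right (fun u => g u) a]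
  have h1 := intervalIntegral.integral_add_adjacent_intervals (hi (X₁ - a) (X₁ + a))
      (hi (X₁ + a) (X₂ + a))
  have h2 := intervalIntegral.integral_add_adjacent_intervals (hi (X₁ - a) (X₂ - a))
      (hi (X₂ - a) (X₂ + a))
  linarith

theorem Lam_periodic (s : ℝ) : Function.Periodic (fun x => Lam s x) (2 * Real.pi) := by
  intro x; simp [Lam]

theorem lam_periodic (s : ℝ) : Function.Periodic (fun x => lam s x) (2 * Real.pi) := by
  intro x; simp [lam]

theorem LL_X_sub {s : ℝ} (hs : s ≠ 0) (a X₁ X₂ : ℝ) :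
    LL a X₁ s - LL a X₂ s = ∫ y in X₁..X₂, (Lam s (y + a) - Lam s (y - a)) :=
  per_diff (fun x => Lam s x) (continuous_Lam_x hs) (Lam_periodic s) a X₁ X₂

theorem GG_X_sub {s : ℝ} (hs : s ≠ 0) (a X₁ X₂ : ℝ) :
    GG a X₁ s - GG a X₂ s = ∫ y in X₁..X₂, (lam s (y + a) - lam s (y - a)) :=
  per_diff (fun x => lam s x) (continuous_lam_x hs) (lam_periodic s) a X₁ X₂

theorem cos_sub_cos_add (y a : ℝ) :
    Real.cos (y - a) - Real.cos (y + a) = 2 * Real.sin y * Real.sin a := by
  rw [Real.cos_sub, Real.cos_add]; ring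

/-- `GG(a,X,s) ≥ GG(a,0,s)` -/
theorem GG_zero_le {s : ℝ} (hs : 0 ≤ s) {a X : ℝ} (ha0 : 0 ≤ a) (ha : a ≤ Real.pi)
    (hX0 : 0 ≤ X) (hX : X ≤ Real.pi) : GG a 0 s ≤ GG a X s := by
  rcases hs.eq_or_lt with h | h
  · subst h; simp [GG, lam_zero]
  have h1 := GG_X_sub h.ne' a 0 X
  have h2 : (∫ y in (0:ℝ)..X, (lam s (y + a) - lam s (y - a))) ≤ 0 := by
    rw [← neg_nonneg, ← intervalIntegral.integral_neg]
    apply intervalIntegral.integral_nonneg hX0
    intro y hy
    have hy1 : 0 ≤ Real.sin y := Real.sin_nonneg_of_nonneg_of_le_pi hy.1 (hy.2.trans hX)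
    have ha1 : 0 ≤ Real.sin a := Real.sin_nonneg_of_nonneg_of_le_pi ha0 ha
    have h3 := cos_sub_cos_add y a
    have h4 : Real.cos (y + a) ≤ Real.cos (y - a) := by nlinarith [mul_nonneg hy1 ha1]
    have h5 : lam s (y + a) ≤ lam s (y - a) := by
      unfold lam
      apply div_le_div_of_nonneg_left (Real.sinh_nonneg_iff.mpr h.le) (den_pos h.ne' _)
      linarith
    linarith
  linarith

/-- `GG(0,0,s) = 2π` for `s > 0` -/
theorem GG_00 {s : ℝ} (hs : 0 < s) : GG 0 0 s = 2 * Real.pi := by
  have hconst : ∀ v, 0 < v → GG 0 0 v = GG 0 0 s := by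
    intro v hv
    have := GG_sub 0 hs hv
    simp only [Real.sin_zero, mul_zero, zero_div, intervalIntegral.integral_zero] at this
    linarith
  have hlim : Tendsto (fun v => GG 0 0 v) atTop (𝓝 (2 * Real.pi)) := by
    have hb : ∀ v : ℝ, 0 < v → |GG 0 0 v - 2 * Real.pi| ≤ 2 * Real.pi * (4 / v ^ 2) := by
      intro v hv
      have h1 : GG 0 0 v - 2 * Real.pi = ∫ x in (0:ℝ)..Real.pi,
          ((lam v (0 - x) + lam v (0 + x)) - 2) := by
        rw [intervalIntegral.integral_sub (intervalIntegrable_lam _ _ _ _) (by simp)]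
        simp [GG]; ring
      rw [h1]
      have h2 := intervalIntegral.norm_integral_le_of_norm_le_const (a := (0:ℝ)) (b := Real.pi)
        (f := fun x => (lam v (0 - x) + lam v (0 + x)) - 2) (C := 2 * (4 / v ^ 2)) ?_
      · rw [Real.norm_eq_abs, sub_zero, abs_of_pos Real.pi_pos] at h2
        linarith
      · intro x _
        rw [zero_sub, zero_add, lam_negx]
        have h3 : lam v x - 1 = (Real.cos x - Real.exp (-v)) / (Real.cosh v - Real.cos x) := by
          unfold lam
          rw [eq_div_iff (den_pos hv.ne' x).ne', sub_mul, div_mul_cancel₀ _ (den_pos hv.ne' x).ne']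
          rw [Real.sinh_eq, Real.cosh_eq]; ring
        have h4 : |lam v x - 1| ≤ 4 / v ^ 2 := by
          rw [h3, abs_div, abs_of_pos (den_pos hv.ne' x)]
          have h5 : |Real.cos x - Real.exp (-v)| ≤ 2 := by
            have e1 : Real.exp (-v) ≤ 1 := Real.exp_le_one_iff.mpr (by linarith)
            have e2 := Real.exp_pos (-v)
            have e3 := Real.cos_le_one x
            have e4 := Real.neg_one_le_cos x
            rw [abs_le]; constructor <;> linarith
          have h6 := den_lower v x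
          have h7 : (0:ℝ) < v ^ 2 := by positivity
          rw [div_le_div_iff₀ (den_pos hv.ne' x) h7]
          nlinarith
        rw [Real.norm_eq_abs, show lam v x + lam v x - 2 = 2 * (lam v x - 1) by ring, abs_mul,
          abs_of_pos (by norm_num : (0:ℝ) < 2)]
        linarith
    have hz : Tendsto (fun v : ℝ => 2 * Real.pi * (4 / v ^ 2)) atTop (𝓝 0) := by
      have : Tendsto (fun v : ℝ => v ^ 2) atTop atTop := tendsto_pow_atTop (by norm_num)
      have h2 := (this.const_div_atTop (4:ℝ)).const_mul (2 * Real.pi)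
      simpa using h2
    rw [tendsto_iff_norm_sub_tendsto_zero]
    refine squeeze_zero' (Eventually.of_forall fun _ => norm_nonneg _) ?_ hz
    filter_upwards [eventually_gt_atTop 0] with v hv
    exact hb v hv
  have hlim2 : Tendsto (fun v => GG 0 0 v) atTop (𝓝 (GG 0 0 s)) := by
    refine Tendsto.congr' ?_ tendsto_const_nhds
    filter_upwards [eventually_gt_atTop 0] with v hv
    exact (hconst v hv).symm
  exact tendsto_nhds_unique hlim2 hlim

theorem GG_0X {s : ℝ} (hs : 0 < s) (X : ℝ) : GG 0 X s = 2 * Real.pi := by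
  have h1 := GG_X_sub hs.ne' 0 0 X
  simp only [add_zero, sub_zero, sub_self, intervalIntegral.integral_zero] at h1
  rw [← GG_00 hs]; linarith

theorem GG_le {s : ℝ} (hs : 0 ≤ s) {a : ℝ} (ha0 : 0 ≤ a) (X : ℝ) : GG a X s ≤ 2 * Real.pi := by
  rcases hs.eq_or_lt with h | h
  · subst h; simp [GG, lam_zero, Real.pi_pos.le]
  · exact (GG_le_zero hs ha0 X).trans (GG_0X h X).le

theorem GG_abs_le (s : ℝ) {a : ℝ} (ha0 : 0 ≤ a) (ha : a ≤ Real.pi) (X : ℝ) :
    |GG a X s| ≤ 2 * Real.pi := by
  rcases le_total 0 s with h | h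
  · rw [abs_of_nonneg (GG_nonneg h ha X)]; exact GG_le h ha0 X
  · have h' : 0 ≤ -s := by linarith
    have := GG_neg a X (-s)
    rw [neg_neg] at this
    rw [this, abs_neg, abs_of_nonneg (GG_nonneg h' ha X)]; exact GG_le h' ha0 X

theorem LL_abs_le {s : ℝ} (hs : s ≠ 0) {a : ℝ} (ha0 : 0 ≤ a) (ha : a ≤ Real.pi) (X : ℝ) :
    |LL a X s| ≤ 2 * Real.pi * (|s| + 2 * |Real.log s| + 1) := by
  unfold LL
  have h2 := intervalIntegral.norm_integral_le_of_norm_le_const (a := a) (b := Real.pi)
    (f := fun x => (Lam s (X - x) + Lam s (X + x))) (C := 2 * (|s| + 2 * |Real.log s| + 1)) ?_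
  · rw [Real.norm_eq_abs] at h2
    refine h2.trans ?_
    have : |Real.pi - a| ≤ Real.pi := by rw [abs_of_nonneg (by linarith)]; linarith
    have h3 : 0 ≤ 2 * (|s| + 2 * |Real.log s| + 1) := by positivity
    nlinarith
  · intro x _
    rw [Real.norm_eq_abs]
    have := Lam_abs_le hs (X - x)
    have := Lam_abs_le hs (X + x)
    calc |Lam s (X - x) + Lam s (X + x)| ≤ |Lam s (X - x)| + |Lam s (X + x)| := abs_add_le _ _
      _ ≤ _ := by linarith

end Pool.Agent.Helper90.VS
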