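import Pool.Agent.Helper90.VS.Kernel

open MeasureTheory Set Filter Topology

namespace Pool.Agent.Helper90.VS

theorem measurable_Lam : Measurable (fun q : ℝ × ℝ => Lam q.1 q.2) := by
  unfold Lam; fun_prop

theorem measurable_lam : Measurable (fun q : ℝ × ℝ => lam q.1 q.2) := by
  unfold lam; fun_prop

theorem measurable_param (F : ℝ × ℝ → ℝ) (hF : Measurable F) :
    Measurable (fun q : ℝ × ℝ => ∫ x in q.1..Real.pi, F (q.2, x)) := by
  have h1 : Measurable (fun q : ℝ × ℝ => ∫ x in Ioc q.1 Real.pi, F (q.2, x)) := by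
    have e : (fun q : ℝ × ℝ => ∫ x in Ioc q.1 Real.pi, F (q.2, x))
        = fun q : ℝ × ℝ => ∫ x, ({p : (ℝ × ℝ) × ℝ | p.1.1 < p.2 ∧ p.2 ≤ Real.pi}.indicator
          (fun p => F (p.1.2, p.2))) (q, x) := by
      ext q
      rw [← integral_indicator measurableSet_Ioc]
      congr 1
    rw [e]
    have hS : MeasurableSet {p : (ℝ × ℝ) × ℝ | p.1.1 < p.2 ∧ p.2 ≤ Real.pi} :=
      (measurableSet_lt (f := fun p : (ℝ × ℝ) × ℝ => p.1.1) (g := fun p => p.2)
        (by fun_prop) (by fun_prop)).inter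
        (measurableSet_le (f := fun p : (ℝ × ℝ) × ℝ => p.2) (g := fun _ => Real.pi)
        (by fun_prop) (by fun_prop))
    have hm : Measurable ({p : (ℝ × ℝ) × ℝ | p.1.1 < p.2 ∧ p.2 ≤ Real.pi}.indicator
          (fun p => F (p.1.2, p.2))) := (hF.comp (by fun_prop)).indicator hS
    exact (hm.stronglyMeasurable.integral_prod_right').measurable
  have h2 : Measurable (fun q : ℝ × ℝ => ∫ x in Ioc Real.pi q.1, F (q.2, x)) := by
    have e : (fun q : ℝ × ℝ => ∫ x in Ioc Real.pi q.1, F (q.2, x))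
        = fun q : ℝ × ℝ => ∫ x, ({p : (ℝ × ℝ) × ℝ | Real.pi < p.2 ∧ p.2 ≤ p.1.1}.indicator
          (fun p => F (p.1.2, p.2))) (q, x) := by
      ext q
      rw [← integral_indicator measurableSet_Ioc]
      congr 1
    rw [e]
    have hS : MeasurableSet {p : (ℝ × ℝ) × ℝ | Real.pi < p.2 ∧ p.2 ≤ p.1.1} :=
      (measurableSet_lt (f := fun _ : (ℝ × ℝ) × ℝ => Real.pi) (g := fun p => p.2)
        (by fun_prop) (by fun_prop)).inter
        (measurableSet_le (f := fun p : (ℝ × ℝ) × ℝ => p.2) (g := fun p => p.1.1)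
        (by fun_prop) (by fun_prop))
    have hm : Measurable ({p : (ℝ × ℝ) × ℝ | Real.pi < p.2 ∧ p.2 ≤ p.1.1}.indicator
          (fun p => F (p.1.2, p.2))) := (hF.comp (by fun_prop)).indicator hS
    exact (hm.stronglyMeasurable.integral_prod_right').measurable
  unfold intervalIntegral
  exact h1.sub h2

theorem measurable_LL (X : ℝ) : Measurable (fun q : ℝ × ℝ => LL q.1 X q.2) := by
  unfold LL
  exact measurable_param (fun p => Lam p.1 (X - p.2) + Lam p.1 (X + p.2))
    ((measurable_Lam.comp (g := fun q : ℝ × ℝ => Lam q.1 q.2) (f := fun p : ℝ × ℝ => (p.1, X - p.2))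
      (by fun_prop)).add
     (measurable_Lam.comp (g := fun q : ℝ × ℝ => Lam q.1 q.2) (f := fun p : ℝ × ℝ => (p.1, X + p.2))
      (by fun_prop)))

theorem measurable_GG (X : ℝ) : Measurable (fun q : ℝ × ℝ => GG q.1 X q.2) := by
  unfold GG
  exact measurable_param (fun p => lam p.1 (X - p.2) + lam p.1 (X + p.2))
    ((measurable_lam.comp (g := fun q : ℝ × ℝ => lam q.1 q.2) (f := fun p : ℝ × ℝ => (p.1, X - p.2))
      (by fun_prop)).add
     (measurable_lam.comp (g := fun q : ℝ × ℝ => lam q.1 q.2) (f := fun p : ℝ × ℝ => (p.1, X + p.2))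
      (by fun_prop)))

theorem Prof.measurable {a : ℝ → ℝ} (ha : Prof a) : Measurable a := ha.mono.measurable

theorem meas_LL_comp {a : ℝ → ℝ} (ha : Prof a) (X : ℝ) {f : ℝ → ℝ} (hf : Measurable f) :
    Measurable (fun τ => LL (a τ) X (f τ)) := by
  have h1 := measurable_LL X
  have h2 : Measurable (fun τ => (a τ, f τ)) := (Prof.measurable ha).prodMk hf
  have h3 := Measurable.comp h1 h2
  simp only [Function.comp_def] at h3
  exact h3

theorem meas_GG_comp {a : ℝ → ℝ} (ha : Prof a) (X : ℝ) {f : ℝ → ℝ} (hf : Measurable f) :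
    Measurable (fun τ => GG (a τ) X (f τ)) := by
  have h1 := measurable_GG X
  have h2 : Measurable (fun τ => (a τ, f τ)) := (Prof.measurable ha).prodMk hf
  have h3 := Measurable.comp h1 h2
  simp only [Function.comp_def] at h3
  exact h3

theorem intble_log_bound (t C b c : ℝ) :
    IntervalIntegrable (fun τ => C * (1 + |Real.log (t - τ)|)) volume b c := by
  have h1 : IntervalIntegrable (fun τ => Real.log (t - τ)) volume b c := by
    have := (intervalIntegral.intervalIntegrable_log' (a := t - b) (b := t - c)).comp_sub_left t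
    simpa using this
  exact (intervalIntegrable_const.add h1.abs).const_mul C

theorem intble_of_bound {f : ℝ → ℝ} (hf : Measurable f) (t C b c : ℝ)
    (hb : ∀ τ ∈ uIoc b c, τ ≠ t → |f τ| ≤ C * (1 + |Real.log (t - τ)|)) :
    IntervalIntegrable f volume b c := by
  refine (intble_log_bound t C b c).mono_fun hf.aestronglyMeasurable ?_
  have hne : ∀ᵐ τ ∂(volume.restrict (uIoc b c)), τ ≠ t :=
    ae_restrict_of_ae (by simp [ae_iff, measure_singleton])
  filter_upwards [hne, ae_restrict_mem measurableSet_uIoc] with τ h1 h2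
  have := hb τ h2 h1
  rw [Real.norm_eq_abs, Real.norm_eq_abs]
  exact this.trans (le_abs_self _)

theorem wt_pos (m : ℕ) (τ : ℝ) : 0 < wt m τ := Real.exp_pos _

theorem wt_le_one (m : ℕ) {τ : ℝ} (hτ : 0 ≤ τ) : wt m τ ≤ 1 := by
  unfold wt
  rw [Real.exp_le_one_iff]
  have : 0 ≤ 2 * τ / m := by positivity
  linarith

theorem wt_ge {m : ℕ} (hm : 1 ≤ m) {τ : ℝ} (hτ : τ ≤ 10) :
    Real.exp (-20) ≤ wt m τ := by
  unfold wt
  rw [Real.exp_le_exp]
  have hm' : (1:ℝ) ≤ m := by exact_mod_cast hm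
  have : 2 * τ / m ≤ 20 := by
    rw [div_le_iff₀ (by linarith)]; nlinarith
  linarith

theorem measurable_wt (m : ℕ) : Measurable (wt m) := by unfold wt; fun_prop

theorem continuous_wt (m : ℕ) : Continuous (wt m) := by unfold wt; fun_prop

theorem antitone_wt (m : ℕ) : Antitone (wt m) := by
  intro x y h
  unfold wt
  rw [Real.exp_le_exp]
  have : 2 * x / m ≤ 2 * y / m := by
    apply div_le_div_of_nonneg_right (by linarith) (Nat.cast_nonneg m)
  linarith

/-- weighted version -/
theorem intble_wt_mul {f : ℝ → ℝ} {b c : ℝ} (m : ℕ)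
    (hf : IntervalIntegrable f volume b c) :
    IntervalIntegrable (fun τ => wt m τ * f τ) volume b c :=
  hf.continuousOn_mul (continuous_wt m).continuousOn

theorem intble_LL {a : ℝ → ℝ} (ha : Prof a) (X t : ℝ) (b c : ℝ) :
    IntervalIntegrable (fun τ => LL (a τ) X (t - τ)) volume b c := by
  refine intble_of_bound (meas_LL_comp ha X (by fun_prop)) t
    (2 * Real.pi * (|t| + |b| + |c| + 2)) b c (fun τ hτ hne => ?_)
  have hs : t - τ ≠ 0 := sub_ne_zero.mpr (Ne.symm hne)
  have h1 := LL_abs_le hs (ha.nonneg τ) (ha.le_pi τ) X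
  refine h1.trans ?_
  have hpi := Real.pi_pos
  have h2 : |t - τ| ≤ |t| + |b| + |c| := by
    have h3 : |τ| ≤ |b| + |c| := by
      rw [mem_uIoc] at hτ
      have := abs_nonneg b
      have := abs_nonneg c
      have := neg_abs_le b
      have := le_abs_self b
      have := neg_abs_le c
      have := le_abs_self c
      rw [abs_le]
      rcases hτ with h | h <;> constructor <;> linarith [h.1, h.2]
    have := abs_sub t τ
    linarith
  have h4 := abs_nonneg (Real.log (t - τ))
  have h5 := abs_nonneg t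
  have h6 := abs_nonneg b
  have h7 := abs_nonneg c
  have h8 : |t - τ| + 2 * |Real.log (t - τ)| + 1 ≤
      (|t| + |b| + |c| + 2) * (1 + |Real.log (t - τ)|) := by nlinarith
  calc 2 * Real.pi * (|t - τ| + 2 * |Real.log (t - τ)| + 1)
      ≤ 2 * Real.pi * ((|t| + |b| + |c| + 2) * (1 + |Real.log (t - τ)|)) := by gcongr
    _ = _ := by ring

theorem intble_LL' {a : ℝ → ℝ} (ha : Prof a) (X t : ℝ) (b c : ℝ) :
    IntervalIntegrable (fun τ => LL (a τ) X (t + τ)) volume b c := by
  have h := intble_LL ha X (-t) b c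
  have e : (fun τ => LL (a τ) X (t + τ)) = fun τ => LL (a τ) X (-t - τ) := by
    ext τ
    rw [← LL_neg]; congr 1; ring
  rw [e]; exact h

theorem intble_LL0 {a : ℝ → ℝ} (ha : Prof a) (X : ℝ) (b c : ℝ) :
    IntervalIntegrable (fun τ => LL (a τ) X τ) volume b c := by
  simpa using intble_LL' ha X 0 b c

theorem intble_of_bdd {f : ℝ → ℝ} (hf : Measurable f) (C b c : ℝ)
    (hb : ∀ τ ∈ uIoc b c, |f τ| ≤ C) : IntervalIntegrable f volume b c := by
  refine (intervalIntegrable_const (c := C)).mono_fun hf.aestronglyMeasurable ?_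
  filter_upwards [ae_restrict_mem measurableSet_uIoc] with τ h2
  rw [Real.norm_eq_abs, Real.norm_eq_abs]
  exact (hb τ h2).trans (le_abs_self _)

theorem intble_GG {a : ℝ → ℝ} (ha : Prof a) (X : ℝ) {f : ℝ → ℝ} (hf : Measurable f) (b c : ℝ) :
    IntervalIntegrable (fun τ => GG (a τ) X (f τ)) volume b c :=
  intble_of_bdd (meas_GG_comp ha X hf) (2 * Real.pi) b c
    (fun τ _ => GG_abs_le _ (ha.nonneg τ) (ha.le_pi τ) X)

theorem intble_GG0 {a : ℝ → ℝ} (ha : Prof a) (X : ℝ) (b c : ℝ) :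
    IntervalIntegrable (fun τ => GG (a τ) X τ) volume b c :=
  intble_GG ha X measurable_id b c

theorem intble_a {a : ℝ → ℝ} (ha : Prof a) (b c : ℝ) : IntervalIntegrable a volume b c :=
  ha.mono.intervalIntegrable

theorem intble_sin {a : ℝ → ℝ} (ha : Prof a) (b c : ℝ) :
    IntervalIntegrable (fun τ => Real.sin (a τ)) volume b c :=
  intble_of_bdd (Real.measurable_sin.comp ha.measurable) 1 b c (fun _ _ => Real.abs_sin_le_one _)

theorem sin_a_nonneg {a : ℝ → ℝ} (ha : Prof a) (τ : ℝ) : 0 ≤ Real.sin (a τ) :=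
  Real.sin_nonneg_of_nonneg_of_le_pi (ha.nonneg τ) (ha.le_pi τ)

/-- the integrand of `PhiI` -/
theorem intble_PhiI {a : ℝ → ℝ} (ha : Prof a) (m : ℕ) (X t : ℝ) (b c : ℝ) :
    IntervalIntegrable (fun τ => wt m τ * (LL (a τ) X (t - τ) - LL (a τ) 0 τ + t * GG (a τ) 0 τ))
      volume b c :=
  intble_wt_mul m (((intble_LL ha X t b c).sub (intble_LL0 ha 0 b c)).add
    ((intble_GG0 ha 0 b c).const_mul t))

end Pool.Agent.Helper90.VS
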