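import Pool.Agent.Helper90.VS.Meas

open MeasureTheory Set Filter Topology

namespace Pool.Agent.Helper90.VS

theorem sin_nonneg_Icc {y : ℝ} (hy : y ∈ Icc 0 Real.pi) : 0 ≤ Real.sin y :=
  Real.sin_nonneg_of_nonneg_of_le_pi hy.1 hy.2

/-- lower bound for `Λ(s,y+a) − Λ(s,y−a)` -/
theorem Lam_diff_lower {s : ℝ} (hs : s ≠ 0) (y a : ℝ) :
    2 * Real.sin y * Real.sin a / (Real.cosh s - Real.cos (y + a)) ≤
      Lam s (y + a) - Lam s (y - a) := by
  have hB := den_pos hs (y + a)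
  have hA := den_pos hs (y - a)
  unfold Lam
  rw [← Real.log_div hB.ne' hA.ne']
  have h1 := Real.one_sub_inv_le_log_of_pos (div_pos hB hA)
  refine le_trans (le_of_eq ?_) h1
  rw [inv_div, ← cos_sub_cos_add]
  field_simp
  ring

theorem Lam_diff_upper {s : ℝ} (hs : s ≠ 0) (y a : ℝ) :
    Lam s (y + a) - Lam s (y - a) ≤
      2 * Real.sin y * Real.sin a / (Real.cosh s - Real.cos (y - a)) := by
  have hB := den_pos hs (y + a)
  have hA := den_pos hs (y - a)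
  unfold Lam
  rw [← Real.log_div hB.ne' hA.ne']
  have h1 := Real.log_le_sub_one_of_pos (div_pos hB hA)
  refine le_trans h1 (le_of_eq ?_)
  rw [← cos_sub_cos_add]
  field_simp
  ring

theorem Lam_diff_nonneg {s : ℝ} (hs : s ≠ 0) {y a : ℝ} (hy : y ∈ Icc 0 Real.pi)
    (ha : a ∈ Icc 0 Real.pi) : 0 ≤ Lam s (y + a) - Lam s (y - a) := by
  refine le_trans ?_ (Lam_diff_lower hs y a)
  have := sin_nonneg_Icc hy
  have := sin_nonneg_Icc ha
  have := den_pos hs (y + a)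
  positivity

theorem continuous_Lam_diff {s : ℝ} (hs : s ≠ 0) (a : ℝ) :
    Continuous (fun y => Lam s (y + a) - Lam s (y - a)) :=
  ((continuous_Lam_x hs).comp (by fun_prop)).sub ((continuous_Lam_x hs).comp (by fun_prop))

/-- difference of `Phi` in `X` -/
theorem Phi_X_sub (m : ℕ) {a : ℝ → ℝ} (ha : Prof a) (X₁ X₂ t : ℝ) :
    Phi m a X₂ t - Phi m a X₁ t = (1 / (4 * Real.pi)) *
      ∫ τ in (0:ℝ)..10, wt m τ * (LL (a τ) X₁ (t - τ) - LL (a τ) X₂ (t - τ)) := by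
  unfold Phi PhiI
  have h1 := intble_PhiI ha m X₁ t 0 10
  have h2 := intble_PhiI ha m X₂ t 0 10
  have h3 := intervalIntegral.integral_sub h1 h2
  have h4 : (∫ τ in (0:ℝ)..10, wt m τ * (LL (a τ) X₁ (t - τ) - LL (a τ) X₂ (t - τ))) =
      ∫ τ in (0:ℝ)..10, (wt m τ * (LL (a τ) X₁ (t - τ) - LL (a τ) 0 τ + t * GG (a τ) 0 τ) -
        wt m τ * (LL (a τ) X₂ (t - τ) - LL (a τ) 0 τ + t * GG (a τ) 0 τ)) := by
    congr 1; ext τ; ring
  rw [h4, h3]; ring

theorem cosh_le_cosh_ten {s : ℝ} (hs : |s| ≤ 10) : Real.cosh s ≤ Real.cosh 10 := by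
  rw [Real.cosh_le_cosh, abs_of_pos (by norm_num : (0:ℝ) < 10)]; exact hs

theorem ae_ne_restrict (t : ℝ) (S : Set ℝ) : ∀ᵐ τ ∂(volume.restrict S), τ ≠ t :=
  ae_restrict_of_ae (by simp [ae_iff, measure_singleton])

/-- integral comparison on `[0,10]` for functions ordered off one point -/
theorem integral_mono_ne {f g : ℝ → ℝ} {b c : ℝ} (hbc : b ≤ c) (hf : IntervalIntegrable f volume b c)
    (hg : IntervalIntegrable g volume b c) (t : ℝ)
    (h : ∀ τ ∈ Icc b c, τ ≠ t → f τ ≤ g τ) :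
    ∫ τ in b..c, f τ ≤ ∫ τ in b..c, g τ := by
  apply intervalIntegral.integral_mono_ae_restrict hbc hf hg
  filter_upwards [ae_ne_restrict t (Icc b c), ae_restrict_mem measurableSet_Icc] with τ h1 h2
  exact h τ h2 h1

theorem LL_X_lower {s : ℝ} (hs : s ≠ 0) (hs10 : |s| ≤ 10) {a X₁ X₂ : ℝ} (ha : a ∈ Icc 0 Real.pi)
    (h1 : 0 ≤ X₁) (h12 : X₁ ≤ X₂) (h2 : X₂ ≤ Real.pi) :
    2 * Real.sin a / (Real.cosh 10 + 1) * (Real.cos X₁ - Real.cos X₂) ≤
      LL a X₁ s - LL a X₂ s := by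
  rw [LL_X_sub hs]
  have e : 2 * Real.sin a / (Real.cosh 10 + 1) * (Real.cos X₁ - Real.cos X₂)
      = ∫ y in X₁..X₂, 2 * Real.sin a / (Real.cosh 10 + 1) * Real.sin y := by
    rw [intervalIntegral.integral_const_mul, integral_sin]
  rw [e]
  apply intervalIntegral.integral_mono_on h12
    (Continuous.intervalIntegrable (by fun_prop) _ _)
    ((continuous_Lam_diff hs a).intervalIntegrable _ _)
  intro y hy
  have hy' : y ∈ Icc 0 Real.pi := ⟨h1.trans hy.1, hy.2.trans h2⟩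
  refine le_trans ?_ (Lam_diff_lower hs y a)
  have h3 := sin_nonneg_Icc hy'
  have h4 := sin_nonneg_Icc ha
  have h5 := den_pos hs (y + a)
  have h6 : Real.cosh s - Real.cos (y + a) ≤ Real.cosh 10 + 1 := by
    have := Real.neg_one_le_cos (y + a)
    have := cosh_le_cosh_ten hs10
    linarith
  calc 2 * Real.sin a / (Real.cosh 10 + 1) * Real.sin y
      = 2 * Real.sin y * Real.sin a / (Real.cosh 10 + 1) := by ring
    _ ≤ _ := by
        apply div_le_div_of_nonneg_left (by positivity) h5 h6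

/-- A1' -/
theorem Phi_X_lower (m : ℕ) (hm : 1 ≤ m) (a : ℝ → ℝ) (ha : Prof a) (X₁ X₂ t : ℝ) (h1 : 0 ≤ X₁)
    (h12 : X₁ ≤ X₂) (h2 : X₂ ≤ Real.pi) (ht : t ∈ Icc (0:ℝ) 10) :
    Real.exp (-20) / (2 * Real.pi * (Real.cosh 10 + 1)) * mass a * (Real.cos X₁ - Real.cos X₂)
      ≤ Phi m a X₂ t - Phi m a X₁ t := by
  rw [Phi_X_sub m ha]
  have hcos : 0 ≤ Real.cos X₁ - Real.cos X₂ := by
    have := Real.cos_le_cos_of_nonneg_of_le_pi h1 h2 h12
    linarith
  have hc : (0:ℝ) < Real.cosh 10 + 1 := by have := Real.cosh_pos 10; linarith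
  have e : Real.exp (-20) / (2 * Real.pi * (Real.cosh 10 + 1)) * mass a *
      (Real.cos X₁ - Real.cos X₂) = (1 / (4 * Real.pi)) * ∫ τ in (0:ℝ)..10,
        Real.exp (-20) * (2 / (Real.cosh 10 + 1) * (Real.cos X₁ - Real.cos X₂)) *
          Real.sin (a τ) := by
    rw [intervalIntegral.integral_const_mul]
    unfold mass
    have := Real.pi_pos
    field_simp
    ring
  rw [e]
  have hpi := Real.pi_pos
  apply mul_le_mul_of_nonneg_left _ (by positivity)
  apply integral_mono_ne (by norm_num) ((intble_sin ha 0 10).const_mul _)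
    (intble_wt_mul m ((intble_LL ha X₁ t 0 10).sub (intble_LL ha X₂ t 0 10))) t
  intro τ hτ hne
  have hs : t - τ ≠ 0 := sub_ne_zero.mpr (Ne.symm hne)
  have hs10 : |t - τ| ≤ 10 := by rw [abs_le]; constructor <;> linarith [ht.1, ht.2, hτ.1, hτ.2]
  have h3 := LL_X_lower hs hs10 ⟨ha.nonneg τ, ha.le_pi τ⟩ h1 h12 h2
  have h4 := wt_ge hm hτ.2
  have h5 := sin_a_nonneg ha τ
  calc Real.exp (-20) * (2 / (Real.cosh 10 + 1) * (Real.cos X₁ - Real.cos X₂)) * Real.sin (a τ)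
      = Real.exp (-20) * (2 * Real.sin (a τ) / (Real.cosh 10 + 1) *
        (Real.cos X₁ - Real.cos X₂)) := by ring
    _ ≤ wt m τ * (2 * Real.sin (a τ) / (Real.cosh 10 + 1) * (Real.cos X₁ - Real.cos X₂)) := by
        gcongr
    _ ≤ _ := mul_le_mul_of_nonneg_left h3 (wt_pos m τ).le

end Pool.Agent.Helper90.VS
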