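import Pool.Agent.Helper90.VS.PhiA
import Pool.Agent.Helper24.VS.Dpart

open MeasureTheory Set Filter Topology

namespace Pool.Agent.Helper90.VS

/-- comparison of averages -/
theorem avg_diff (g : ℝ → ℝ) (μ t₁ t₂ : ℝ) (h1 : 0 < t₁) (h12 : t₁ ≤ t₂)
    (hg : ContinuousOn g (Icc 0 t₂))
    (hinc : ∀ v₁ v₂, 0 ≤ v₁ → v₁ ≤ v₂ → v₂ ≤ t₂ → μ * (v₂ - v₁) ≤ g v₂ - g v₁) :
    μ * (t₂ - t₁) / 2 ≤ (∫ v in (0:ℝ)..t₂, g v) / t₂ - (∫ v in (0:ℝ)..t₁, g v) / t₁ := by
  have h2 : 0 < t₂ := h1.trans_le h12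
  have e : ∀ t, 0 < t → (∫ v in (0:ℝ)..t, g v) / t = ∫ z in (0:ℝ)..1, g (t * z) := by
    intro t ht
    rw [intervalIntegral.integral_comp_mul_left g ht.ne', mul_zero, mul_one, smul_eq_mul]
    field_simp
  rw [e t₂ h2, e t₁ h1]
  have hc : ∀ t, 0 < t → t ≤ t₂ → IntervalIntegrable (fun z => g (t * z)) volume 0 1 := by
    intro t ht ht2
    apply ContinuousOn.intervalIntegrable
    rw [uIcc_of_le zero_le_one]
    refine hg.comp (by fun_prop) ?_
    intro z hz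
    constructor
    · exact mul_nonneg ht.le hz.1
    · nlinarith [hz.1, hz.2]
  rw [← intervalIntegral.integral_sub (hc t₂ h2 le_rfl) (hc t₁ h1 h12)]
  have e2 : μ * (t₂ - t₁) / 2 = ∫ z in (0:ℝ)..1, μ * (t₂ - t₁) * z := by
    rw [intervalIntegral.integral_const_mul, integral_id]; ring
  rw [e2]
  apply intervalIntegral.integral_mono_on zero_le_one
    (Continuous.intervalIntegrable (by fun_prop) _ _) ((hc t₂ h2 le_rfl).sub (hc t₁ h1 h12))
  intro z hz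
  have h3 := hinc (t₁ * z) (t₂ * z) (mul_nonneg h1.le hz.1)
    (mul_le_mul_of_nonneg_right h12 hz.1) (by nlinarith [hz.1, hz.2])
  nlinarith

theorem GG_mono_slope {a : ℝ} (ha : a ∈ Icc 0 Real.pi) {v₁ v₂ : ℝ} (h1 : 0 < v₁) (h12 : v₁ ≤ v₂)
    (h2 : v₂ ≤ 20) :
    2 * Real.sin a / (Real.cosh 20 + 1) * (v₂ - v₁) ≤ GG a 0 v₂ - GG a 0 v₁ := by
  rw [GG_sub a h1 (h1.trans_le h12)]
  have e : 2 * Real.sin a / (Real.cosh 20 + 1) * (v₂ - v₁)
      = ∫ _ in v₁..v₂, 2 * Real.sin a / (Real.cosh 20 + 1) := by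
    rw [intervalIntegral.integral_const, smul_eq_mul]; ring
  rw [e]
  have h0 : ∀ v ∈ Icc v₁ v₂, v ≠ 0 := fun v hv => (h1.trans_le hv.1).ne'
  apply intervalIntegral.integral_mono_on h12 intervalIntegrable_const
  · apply ContinuousOn.intervalIntegrable
    rw [uIcc_of_le h12]
    exact fun v hv => (ContinuousAt.div (f := fun _ : ℝ => 2 * Real.sin a)
      (g := fun v : ℝ => Real.cosh v - Real.cos a) (by fun_prop) (by fun_prop)
      (den_pos (h0 v hv) a).ne').continuousWithinAt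
  · intro v hv
    have h5 := den_pos (h0 v hv) a
    have h6 : Real.cosh v ≤ Real.cosh 20 := by
      rw [Real.cosh_le_cosh, abs_of_pos (h1.trans_le hv.1), abs_of_pos (by norm_num : (0:ℝ) < 20)]
      exact hv.2.trans h2
    have h7 := Real.neg_one_le_cos a
    have h8 := sin_nonneg_Icc ha
    apply div_le_div_of_nonneg_left (by positivity) h5 (by linarith)

theorem GG_mono {a : ℝ} (ha : a ∈ Icc 0 Real.pi) {v₁ v₂ : ℝ} (h1 : 0 < v₁) (h12 : v₁ ≤ v₂) :
    GG a 0 v₁ ≤ GG a 0 v₂ := by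
  have h := GG_sub a h1 (h1.trans_le h12)
  have : 0 ≤ ∫ v in v₁..v₂, 2 * Real.sin a / (Real.cosh v - Real.cos a) := by
    apply intervalIntegral.integral_nonneg h12
    intro v hv
    have h5 := den_pos (h1.trans_le hv.1).ne' a
    have h8 := sin_nonneg_Icc ha
    positivity
  linarith

/-- monotonicity in `s` of the difference kernel -/
theorem Lam_diff_anti {s₁ s₂ : ℝ} (h1 : 0 < s₁) (h12 : s₁ ≤ s₂) {y a : ℝ} (hy : y ∈ Icc 0 Real.pi)
    (ha : a ∈ Icc 0 Real.pi) :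
    Lam s₂ (y + a) - Lam s₂ (y - a) ≤ Lam s₁ (y + a) - Lam s₁ (y - a) := by
  have h2 := h1.trans_le h12
  have hB1 := den_pos h1.ne' (y + a)
  have hA1 := den_pos h1.ne' (y - a)
  have hB2 := den_pos h2.ne' (y + a)
  have hA2 := den_pos h2.ne' (y - a)
  unfold Lam
  rw [← Real.log_div hB1.ne' hA1.ne', ← Real.log_div hB2.ne' hA2.ne']
  apply Real.log_le_log (div_pos hB2 hA2)
  rw [div_le_div_iff₀ hA2 hA1]
  have h3 : Real.cosh s₁ ≤ Real.cosh s₂ := by
    rw [Real.cosh_le_cosh, abs_of_pos h1, abs_of_pos h2]; exact h12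
  have h4 := cos_sub_cos_add y a
  have h5 := mul_nonneg (sin_nonneg_Icc hy) (sin_nonneg_Icc ha)
  have h6 : Real.cos (y + a) ≤ Real.cos (y - a) := by linarith
  nlinarith

theorem th_eq (m : ℕ) (hm : 1 ≤ m) (t : ℝ) : th m t = ∫ v in (0:ℝ)..t, wt m v := by
  have hm' : (0:ℝ) < m := by exact_mod_cast hm
  have h : ∀ v ∈ uIcc 0 t, HasDerivAt (fun v => th m v) (wt m v) v := by
    intro v _
    unfold th wt
    have h1 : HasDerivAt (fun v : ℝ => -(2 * v / m)) (-(2 / m)) v := by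
      have h := (hasDerivAt_id v).const_mul (-(2 / (m:ℝ)))
      rw [mul_one] at h
      refine h.congr_of_eventuallyEq (Eventually.of_forall fun x => ?_)
      simp only [id]; ring
    have h2 := ((h1.exp).const_sub 1).const_mul ((m:ℝ) / 2)
    refine h2.congr_deriv ?_
    field_simp
  rw [intervalIntegral.integral_eq_sub_of_hasDerivAt h
    ((continuous_wt m).intervalIntegrable _ _)]
  simp [th]

theorem wt_lip (m : ℕ) (hm : 1 ≤ m) {v₁ v₂ : ℝ} (h1 : 0 ≤ v₁) (h12 : v₁ ≤ v₂) :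
    -(2 / m) * (v₂ - v₁) ≤ wt m v₂ - wt m v₁ := by
  have hm' : (0:ℝ) < m := by exact_mod_cast hm
  have h3 : wt m v₂ = wt m v₁ * Real.exp (-(2 * (v₂ - v₁) / m)) := by
    unfold wt
    rw [← Real.exp_add]; congr 1; ring
  have h4 := Real.add_one_le_exp (-(2 * (v₂ - v₁) / m))
  have h5 := wt_le_one m h1
  have h6 := wt_pos m v₁
  have h7 : 0 ≤ 2 * (v₂ - v₁) / m := by
    have : 0 ≤ v₂ - v₁ := by linarith
    positivity
  rw [h3]
  have e : -(2 / (m:ℝ)) * (v₂ - v₁) = -(2 * (v₂ - v₁) / m) := by ring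
  rw [e]
  nlinarith

theorem th_div (m : ℕ) (hm : 1 ≤ m) {t₁ t₂ : ℝ} (h1 : 0 < t₁) (h12 : t₁ ≤ t₂) :
    th m t₁ / t₁ - th m t₂ / t₂ ≤ (t₂ - t₁) / m := by
  have h := avg_diff (wt m) (-(2 / m)) t₁ t₂ h1 h12 (continuous_wt m).continuousOn
    (fun v₁ v₂ hv1 hv12 _ => wt_lip m hm hv1 hv12)
  rw [← th_eq m hm, ← th_eq m hm] at h
  have e : -(2 / (m:ℝ)) * (t₂ - t₁) / 2 = -((t₂ - t₁) / m) := by ring
  rw [e] at h
  linarith

theorem intble_sig {a : ℝ → ℝ} (ha : Prof a) (m : ℕ) (b c : ℝ) :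
    IntervalIntegrable (fun τ => wt m τ * (2 * (Real.pi - a τ) + GG (a τ) 0 τ)) volume b c :=
  intble_wt_mul m (((intervalIntegrable_const.sub (intble_a ha b c)).const_mul 2).add
    (intble_GG0 ha 0 b c))

theorem sig_nonneg (m : ℕ) {a : ℝ → ℝ} (ha : Prof a) : 0 ≤ sig m a := by
  unfold sig
  have hpi := Real.pi_pos
  apply mul_nonneg (by positivity)
  apply intervalIntegral.integral_nonneg (by norm_num)
  intro τ hτ
  have h1 := GG_nonneg hτ.1 (ha.le_pi τ) 0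
  have h2 := ha.le_pi τ
  exact mul_nonneg (wt_pos m τ).le (by linarith)

theorem sig_le (m : ℕ) {a : ℝ → ℝ} (ha : Prof a) : sig m a ≤ 10 := by
  unfold sig
  have hpi := Real.pi_pos
  have h : (∫ τ in (0:ℝ)..10, wt m τ * (2 * (Real.pi - a τ) + GG (a τ) 0 τ)) ≤
      ∫ _ in (0:ℝ)..10, 4 * Real.pi := by
    apply intervalIntegral.integral_mono_on (by norm_num) (intble_sig ha m 0 10)
      intervalIntegrable_const
    intro τ hτ
    have h1 := GG_nonneg hτ.1 (ha.le_pi τ) 0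
    have h1' := GG_le hτ.1 (ha.nonneg τ) 0
    have h2 := ha.le_pi τ
    have h3 := ha.nonneg τ
    have h4 := wt_le_one m hτ.1
    have h5 := wt_pos m τ
    nlinarith
  rw [intervalIntegral.integral_const, smul_eq_mul] at h
  calc 1 / (4 * Real.pi) * ∫ τ in (0:ℝ)..10, wt m τ * (2 * (Real.pi - a τ) + GG (a τ) 0 τ)
      ≤ 1 / (4 * Real.pi) * ((10 - 0) * (4 * Real.pi)) := by gcongr
    _ = 10 := by field_simp; norm_num

/-- pointwise growth of the `B`-part -/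
theorem beta_growth {a X τ t₁ t₂ : ℝ} (ha : a ∈ Icc 0 Real.pi) (hX : X ∈ Icc 0 Real.pi)
    (hτ0 : 0 < τ) (hτ : τ ≤ 10) (h1 : 0 < t₁) (h12 : t₁ ≤ t₂) (h2 : t₂ ≤ 10) :
    Real.sin a / (Real.cosh 20 + 1) * (t₂ - t₁) ≤
      (LL a X (t₂ + τ) - LL a 0 τ + t₂ * GG a 0 τ) / t₂ -
      (LL a X (t₁ + τ) - LL a 0 τ + t₁ * GG a 0 τ) / t₁ := by
  have ht2 : 0 < t₂ := h1.trans_le h12
  -- averages
  have hg : ContinuousOn (fun v => GG a 0 (v + τ)) (Icc 0 t₂) := by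
    intro v hv
    have hne : v + τ ≠ 0 := by have := hv.1; positivity
    exact ((continuousAt_GG hne a 0).comp (f := fun v => v + τ) (by fun_prop)).continuousWithinAt
  have havg := avg_diff (fun v => GG a 0 (v + τ)) (2 * Real.sin a / (Real.cosh 20 + 1)) t₁ t₂ h1 h12
    hg (fun v₁ v₂ hv1 hv12 hv2 => by
      have := GG_mono_slope ha (v₁ := v₁ + τ) (v₂ := v₂ + τ) (by linarith) (by linarith)
        (by linarith)
      rw [show v₂ + τ - (v₁ + τ) = v₂ - v₁ by ring] at this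
      exact this)
  have hint : ∀ t, 0 < t → (∫ v in (0:ℝ)..t, GG a 0 (v + τ)) = LL a 0 (t + τ) - LL a 0 τ := by
    intro t ht
    rw [intervalIntegral.integral_comp_add_right (fun v => GG a 0 v) τ, zero_add,
      ← LL_sub a 0 hτ0 (by linarith)]
  rw [hint t₂ ht2, hint t₁ h1] at havg
  -- E-part
  have hE : ∀ t, 0 < t → LL a 0 (t + τ) - LL a X (t + τ) =
      ∫ y in (0:ℝ)..X, (Lam (t + τ) (y + a) - Lam (t + τ) (y - a)) := by
    intro t ht
    exact LL_X_sub (by positivity) a 0 X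
  have hE2 : 0 ≤ LL a 0 (t₂ + τ) - LL a X (t₂ + τ) := by
    rw [hE t₂ ht2]
    apply intervalIntegral.integral_nonneg hX.1
    intro y hy
    exact Lam_diff_nonneg (by positivity) ⟨hy.1, hy.2.trans hX.2⟩ ha
  have hE12 : LL a 0 (t₂ + τ) - LL a X (t₂ + τ) ≤ LL a 0 (t₁ + τ) - LL a X (t₁ + τ) := by
    rw [hE t₂ ht2, hE t₁ h1]
    apply intervalIntegral.integral_mono_on hX.1
      ((continuous_Lam_diff (by positivity) a).intervalIntegrable _ _)
      ((continuous_Lam_diff (by positivity) a).intervalIntegrable _ _)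
    intro y hy
    exact Lam_diff_anti (by positivity) (by linarith) ⟨hy.1, hy.2.trans hX.2⟩ ha
  have hE3 : (LL a 0 (t₂ + τ) - LL a X (t₂ + τ)) / t₂ ≤
      (LL a 0 (t₁ + τ) - LL a X (t₁ + τ)) / t₁ := by
    rw [div_le_div_iff₀ ht2 h1]
    nlinarith
  have e1 : (LL a X (t₂ + τ) - LL a 0 τ + t₂ * GG a 0 τ) / t₂ =
      (LL a 0 (t₂ + τ) - LL a 0 τ) / t₂ - (LL a 0 (t₂ + τ) - LL a X (t₂ + τ)) / t₂ + GG a 0 τ := by
    field_simp; ring
  have e2 : (LL a X (t₁ + τ) - LL a 0 τ + t₁ * GG a 0 τ) / t₁ =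
      (LL a 0 (t₁ + τ) - LL a 0 τ) / t₁ - (LL a 0 (t₁ + τ) - LL a X (t₁ + τ)) / t₁ + GG a 0 τ := by
    field_simp; ring
  rw [e1, e2]
  have e3 : 2 * Real.sin a / (Real.cosh 20 + 1) * (t₂ - t₁) / 2 =
      Real.sin a / (Real.cosh 20 + 1) * (t₂ - t₁) := by ring
  rw [e3] at havg
  linarith

theorem mass_wt_ge (m : ℕ) (hm : 1 ≤ m) {a : ℝ → ℝ} (ha : Prof a) :
    Real.exp (-20) * mass a ≤ ∫ τ in (0:ℝ)..10, wt m τ * Real.sin (a τ) := by
  unfold mass
  rw [← intervalIntegral.integral_const_mul]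
  apply intervalIntegral.integral_mono_on (by norm_num) ((intble_sin ha 0 10).const_mul _)
    (intble_wt_mul m (intble_sin ha 0 10))
  intro τ hτ
  exact mul_le_mul_of_nonneg_right (wt_ge hm hτ.2) (sin_a_nonneg ha τ)

/-- quantitative version of A2' -/
theorem Phi_div_le (m : ℕ) (hm : 1 ≤ m) {a : ℝ → ℝ} (ha : Prof a) {X t₁ t₂ : ℝ}
    (hX : X ∈ Icc 0 Real.pi) (h1 : 0 < t₁) (h12 : t₁ ≤ t₂) (h2 : t₂ ≤ 10) :
    Phi m a X t₂ / t₂ - Phi m a X t₁ / t₁ ≤
      (t₂ - t₁) * (10 / m - Real.exp (-20) * mass a / (4 * Real.pi * (Real.cosh 20 + 1))) := by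
  have ht2 : 0 < t₂ := h1.trans_le h12
  have hpi := Real.pi_pos
  have hm' : (0:ℝ) < m := by exact_mod_cast hm
  have hD := Pool.Agent.Helper24.VS.Dpart m hm a ha X hX t₁ t₂ h1 h12 h2
  set D : ℝ → ℝ := fun t => ∫ τ in (0:ℝ)..10, wt m τ * (LL (a τ) X (t + τ) - LL (a τ) X (t - τ))
    with hDdef
  set B : ℝ → ℝ := fun t => ∫ τ in (0:ℝ)..10,
    wt m τ * (LL (a τ) X (t + τ) - LL (a τ) 0 τ + t * GG (a τ) 0 τ) with hBdef
  have hBint : ∀ t, IntervalIntegrable (fun τ => wt m τ * (LL (a τ) X (t + τ) - LL (a τ) 0 τ +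
      t * GG (a τ) 0 τ)) volume 0 10 := fun t =>
    intble_wt_mul m (((intble_LL' ha X t 0 10).sub (intble_LL0 ha 0 0 10)).add
      ((intble_GG0 ha 0 0 10).const_mul t))
  have hDint : ∀ t, IntervalIntegrable (fun τ => wt m τ * (LL (a τ) X (t + τ) -
      LL (a τ) X (t - τ))) volume 0 10 := fun t =>
    intble_wt_mul m ((intble_LL' ha X t 0 10).sub (intble_LL ha X t 0 10))
  have hPhi : ∀ t, PhiI m a X t = (1 / (4 * Real.pi)) * (D t - B t) := by
    intro t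
    unfold PhiI
    rw [hDdef, hBdef]
    simp only
    rw [← intervalIntegral.integral_sub (hDint t) (hBint t), neg_mul, ← mul_neg,
      ← intervalIntegral.integral_neg]
    congr 2; ext τ; ring
  have hB : (t₂ - t₁) * (Real.exp (-20) * mass a / (Real.cosh 20 + 1)) ≤ B t₂ / t₂ - B t₁ / t₁ := by
    have hc : (0:ℝ) < Real.cosh 20 + 1 := by have := Real.cosh_pos 20; linarith
    have s1 : (t₂ - t₁) * (Real.exp (-20) * mass a / (Real.cosh 20 + 1)) ≤
        (t₂ - t₁) / (Real.cosh 20 + 1) * ∫ τ in (0:ℝ)..10, wt m τ * Real.sin (a τ) := by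
      have := mass_wt_ge m hm ha
      have h3 : 0 ≤ (t₂ - t₁) / (Real.cosh 20 + 1) := by
        have : 0 ≤ t₂ - t₁ := by linarith
        positivity
      calc (t₂ - t₁) * (Real.exp (-20) * mass a / (Real.cosh 20 + 1))
          = (t₂ - t₁) / (Real.cosh 20 + 1) * (Real.exp (-20) * mass a) := by ring
        _ ≤ _ := mul_le_mul_of_nonneg_left this h3
    refine s1.trans ?_
    rw [hBdef]
    simp only
    rw [← intervalIntegral.integral_div, ← intervalIntegral.integral_div,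
      ← intervalIntegral.integral_sub ((hBint t₂).div_const _) ((hBint t₁).div_const _),
      ← intervalIntegral.integral_const_mul]
    apply integral_mono_ne (by norm_num)
      ((intble_wt_mul m (intble_sin ha 0 10)).const_mul _)
      (((hBint t₂).div_const _).sub ((hBint t₁).div_const _)) 0
    intro τ hτ hne
    have hτ0 : 0 < τ := lt_of_le_of_ne hτ.1 (Ne.symm hne)
    have h3 := beta_growth ⟨ha.nonneg τ, ha.le_pi τ⟩ hX hτ0 hτ.2 h1 h12 h2
    have h4 := mul_le_mul_of_nonneg_left h3 (wt_pos m τ).le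
    calc (t₂ - t₁) / (Real.cosh 20 + 1) * (wt m τ * Real.sin (a τ))
        = wt m τ * (Real.sin (a τ) / (Real.cosh 20 + 1) * (t₂ - t₁)) := by ring
      _ ≤ _ := h4
      _ = _ := by ring
  have hth := th_div m hm h1 h12
  have hs0 := sig_nonneg m ha
  have hs1 := sig_le m ha
  have hexp : ∀ t, 0 < t → Phi m a X t / t =
      (1 / (4 * Real.pi)) * (D t / t - B t / t) + sig m a * (1 - th m t / t) := by
    intro t ht
    unfold Phi
    rw [hPhi t]
    field_simp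
  rw [hexp t₂ ht2, hexp t₁ h1]
  have h5 : sig m a * (th m t₁ / t₁ - th m t₂ / t₂) ≤ 10 * ((t₂ - t₁) / m) := by
    have h6 : 0 ≤ (t₂ - t₁) / m := by
      have : 0 ≤ t₂ - t₁ := by linarith
      positivity
    calc sig m a * (th m t₁ / t₁ - th m t₂ / t₂) ≤ sig m a * ((t₂ - t₁) / m) :=
          mul_le_mul_of_nonneg_left hth hs0
      _ ≤ _ := mul_le_mul_of_nonneg_right hs1 h6
  have h7 : (1 / (4 * Real.pi)) * (D t₂ / t₂ - D t₁ / t₁ - (B t₂ / t₂ - B t₁ / t₁)) ≤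
      (1 / (4 * Real.pi)) * (0 - (t₂ - t₁) * (Real.exp (-20) * mass a / (Real.cosh 20 + 1))) := by
    apply mul_le_mul_of_nonneg_left _ (by positivity)
    have hD' : D t₂ / t₂ ≤ D t₁ / t₁ := hD
    linarith
  have hc : (0:ℝ) < Real.cosh 20 + 1 := by have := Real.cosh_pos 20; linarith
  have e4 : (1 / (4 * Real.pi)) * (0 - (t₂ - t₁) * (Real.exp (-20) * mass a / (Real.cosh 20 + 1)))
      = -((t₂ - t₁) * (Real.exp (-20) * mass a / (4 * Real.pi * (Real.cosh 20 + 1)))) := by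
    field_simp; ring
  rw [e4] at h7
  have e5 : (t₂ - t₁) * (10 / m - Real.exp (-20) * mass a / (4 * Real.pi * (Real.cosh 20 + 1)))
      = 10 * ((t₂ - t₁) / m) -
        (t₂ - t₁) * (Real.exp (-20) * mass a / (4 * Real.pi * (Real.cosh 20 + 1))) := by ring
  rw [e5]
  nlinarith [h5, h7]

/-- A2' -/
theorem Phi_div_anti (κ : ℝ) (hκ : 0 < κ) : ∃ m₀ : ℕ, ∀ m ≥ m₀, ∀ a, Prof a → κ ≤ mass a →
    ∀ X ∈ Icc 0 Real.pi, ∀ t₁ t₂, 0 < t₁ → t₁ < t₂ → t₂ ≤ 10 →
      Phi m a X t₂ / t₂ < Phi m a X t₁ / t₁ := by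
  set c : ℝ := Real.exp (-20) * κ / (4 * Real.pi * (Real.cosh 20 + 1)) with hc
  have hpi := Real.pi_pos
  have hc0 : 0 < c := by
    have : (0:ℝ) < Real.cosh 20 + 1 := by have := Real.cosh_pos 20; linarith
    rw [hc]; positivity
  obtain ⟨n, hn⟩ := exists_nat_gt (10 / c)
  refine ⟨n + 1, fun m hm a ha hmass X hX t₁ t₂ h1 h12 h2 => ?_⟩
  have hm1 : 1 ≤ m := by omega
  have hm' : (0:ℝ) < m := by exact_mod_cast hm1
  have hmn : (n:ℝ) ≤ m := by exact_mod_cast (by omega : n ≤ m)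
  have h3 := Phi_div_le m hm1 ha hX h1 h12.le h2
  have h4 : 10 / (m:ℝ) < c := by
    rw [div_lt_iff₀ hm']
    rw [div_lt_iff₀ hc0] at hn
    nlinarith
  have h5 : c ≤ Real.exp (-20) * mass a / (4 * Real.pi * (Real.cosh 20 + 1)) := by
    have : (0:ℝ) < Real.cosh 20 + 1 := by have := Real.cosh_pos 20; linarith
    rw [hc]; gcongr
  have h6 : (t₂ - t₁) * (10 / m - Real.exp (-20) * mass a / (4 * Real.pi * (Real.cosh 20 + 1)))
      < 0 := mul_neg_of_pos_of_neg (by linarith) (by linarith)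
  linarith

end Pool.Agent.Helper90.VS
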