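import Pool.Agent.Helper90.VS.PhiB

open MeasureTheory Set Filter Topology

namespace Pool.Agent.Helper90.VS

/-- `LL` is `2π`-Lipschitz in `s` (off `0`) -/
theorem LL_lip {a : ℝ} (ha : a ∈ Icc 0 Real.pi) (X : ℝ) {v₁ v₂ : ℝ} (h1 : v₁ ≠ 0) (h2 : v₂ ≠ 0) :
    |LL a X v₂ - LL a X v₁| ≤ 2 * Real.pi * |v₂ - v₁| := by
  have habs : ∀ v : ℝ, LL a X v = LL a X |v| := by
    intro v
    rcases abs_choice v with h | h <;> rw [h]
    rw [LL_neg]
  rw [habs v₂, habs v₁, LL_sub a X (abs_pos.mpr h1) (abs_pos.mpr h2)]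
  have h3 := intervalIntegral.norm_integral_le_of_norm_le_const (a := |v₁|) (b := |v₂|)
    (f := fun v => GG a X v) (C := 2 * Real.pi)
    (fun v _ => by rw [Real.norm_eq_abs]; exact GG_abs_le v ha.1 ha.2 X)
  rw [Real.norm_eq_abs] at h3
  refine h3.trans ?_
  have h4 := abs_abs_sub_abs_le_abs_sub v₂ v₁
  have hpi := Real.pi_pos
  gcongr

theorem sinh_sin_le (v a : ℝ) : Real.sinh v * Real.sin a ≤ Real.cosh v - Real.cos a := by
  have h1 : |Real.sinh v * Real.sin a + Real.cos a| ≤ Real.cosh v := by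
    apply abs_le_of_sq_le_sq _ (Real.cosh_pos v).le
    have h2 := Real.cosh_sq v
    have h3 := Real.sin_sq_add_cos_sq a
    nlinarith [sq_nonneg (Real.sinh v * Real.cos a - Real.sin a)]
  have := le_abs_self (Real.sinh v * Real.sin a + Real.cos a)
  linarith

theorem GG_slope_upper {a : ℝ} (ha : a ∈ Icc 0 Real.pi) {v₁ v₂ : ℝ} (h1 : 0 < v₁) (h12 : v₁ ≤ v₂) :
    GG a 0 v₂ - GG a 0 v₁ ≤ 2 / v₁ * (v₂ - v₁) := by
  rw [GG_sub a h1 (h1.trans_le h12)]
  have e : 2 / v₁ * (v₂ - v₁) = ∫ _ in v₁..v₂, 2 / v₁ := by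
    rw [intervalIntegral.integral_const, smul_eq_mul]; ring
  rw [e]
  have h0 : ∀ v ∈ Icc v₁ v₂, v ≠ 0 := fun v hv => (h1.trans_le hv.1).ne'
  apply intervalIntegral.integral_mono_on h12 _ intervalIntegrable_const
  · intro v hv
    have hv0 : 0 < v := h1.trans_le hv.1
    have h5 := den_pos (h0 v hv) a
    have h8 := sin_nonneg_Icc ha
    rw [div_le_div_iff₀ h5 h1]
    have h9 := sinh_sin_le v a
    have h10 : v ≤ Real.sinh v := Real.self_le_sinh_iff.mpr hv0.le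
    have h11 : v₁ ≤ v := hv.1
    nlinarith [mul_le_mul_of_nonneg_right (h11.trans h10) h8]
  · apply ContinuousOn.intervalIntegrable
    rw [uIcc_of_le h12]
    exact fun v hv => (ContinuousAt.div (f := fun _ : ℝ => 2 * Real.sin a)
      (g := fun v : ℝ => Real.cosh v - Real.cos a) (by fun_prop) (by fun_prop)
      (den_pos (h0 v hv) a).ne').continuousWithinAt

/-- pointwise bound for A4' -/
theorem A4_point {a X s t₁ t₂ τ : ℝ} (ha : a ∈ Icc 0 Real.pi) (hX : X ∈ Icc 0 Real.pi)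
    (h0 : 0 ≤ t₁) (h12 : t₁ ≤ t₂) (h2 : t₂ ≤ s) (hτ : 0 < τ) (hn1 : τ ≠ t₁) (hn2 : τ ≠ t₂) :
    LL a X (t₂ - τ) - LL a X (t₁ - τ) + (t₂ - t₁) * GG a 0 τ ≤
      (t₂ - t₁) * (4 * Real.pi * √(2 * s / τ)) := by
  have hpi := Real.pi_pos
  have hs : 0 ≤ s := by linarith
  rcases le_or_gt τ (2 * s) with h | h
  · have h3 := LL_lip ha X (sub_ne_zero.mpr (Ne.symm hn1)) (sub_ne_zero.mpr (Ne.symm hn2))
    rw [show t₂ - τ - (t₁ - τ) = t₂ - t₁ by ring, abs_of_nonneg (by linarith : 0 ≤ t₂ - t₁)] at h3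
    have h4 := GG_le hτ.le ha.1 0
    have h5 : 1 ≤ √(2 * s / τ) := by
      rw [Real.one_le_sqrt, le_div_iff₀ hτ]; linarith
    have h6 := le_abs_self (LL a X (t₂ - τ) - LL a X (t₁ - τ))
    have h7 : 0 ≤ t₂ - t₁ := by linarith
    calc LL a X (t₂ - τ) - LL a X (t₁ - τ) + (t₂ - t₁) * GG a 0 τ
        ≤ 2 * Real.pi * (t₂ - t₁) + (t₂ - t₁) * (2 * Real.pi) := by
          have := mul_le_mul_of_nonneg_left h4 h7
          linarith
      _ = (t₂ - t₁) * (4 * Real.pi * 1) := by ring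
      _ ≤ _ := by gcongr
  · have e1 : LL a X (t₂ - τ) = LL a X (τ - t₂) := by
      rw [← LL_neg a X (t₂ - τ)]; congr 1; ring
    have e2 : LL a X (t₁ - τ) = LL a X (τ - t₁) := by
      rw [← LL_neg a X (t₁ - τ)]; congr 1; ring
    have hp2 : 0 < τ - t₂ := by linarith
    have hp1 : 0 < τ - t₁ := by linarith
    have hps : 0 < τ - s := by linarith
    have e3 := LL_sub a X hp2 hp1
    have h3 : (t₂ - t₁) * GG a 0 (τ - s) ≤ ∫ v in (τ - t₂)..(τ - t₁), GG a X v := by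
      have e4 : (t₂ - t₁) * GG a 0 (τ - s) = ∫ _ in (τ - t₂)..(τ - t₁), GG a 0 (τ - s) := by
        rw [intervalIntegral.integral_const, smul_eq_mul]; ring
      rw [e4]
      have h0' : ∀ v ∈ Icc (τ - t₂) (τ - t₁), 0 < v := fun v hv => hp2.trans_le hv.1
      apply intervalIntegral.integral_mono_on (by linarith) intervalIntegrable_const
      · apply ContinuousOn.intervalIntegrable
        rw [uIcc_of_le (by linarith)]
        exact fun v hv => (continuousAt_GG (h0' v hv).ne' a X).continuousWithinAt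
      · intro v hv
        have h4 := GG_zero_le (h0' v hv).le ha.1 ha.2 hX.1 hX.2
        have h5 := GG_mono ha hps (by linarith [hv.1] : τ - s ≤ v)
        linarith
    have h6 := GG_slope_upper ha hps (by linarith : τ - s ≤ τ)
    rw [show τ - (τ - s) = s by ring] at h6
    have h7 : 0 ≤ t₂ - t₁ := by linarith
    have h8 : 2 / (τ - s) * s ≤ 4 * Real.pi * √(2 * s / τ) := by
      have h9 : 2 / (τ - s) * s ≤ 2 * (2 * s / τ) := by
        rw [div_mul_eq_mul_div, ← mul_div_assoc, div_le_div_iff₀ hps hτ]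
        nlinarith
      have h10 : 2 * s / τ ≤ √(2 * s / τ) := by
        have h11 : 0 ≤ 2 * s / τ := by positivity
        have h12 : 2 * s / τ ≤ 1 := by rw [div_le_one hτ]; linarith
        have h13 : √(2 * s / τ) * √(2 * s / τ) = 2 * s / τ := Real.mul_self_sqrt h11
        have h14 : √(2 * s / τ) ≤ 1 := Real.sqrt_le_one.mpr h12
        nlinarith [Real.sqrt_nonneg (2 * s / τ)]
      have h15 : (2:ℝ) ≤ 4 * Real.pi := by have := Real.pi_gt_three; linarith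
      have h16 := Real.sqrt_nonneg (2 * s / τ)
      nlinarith
    have h9 := mul_le_mul_of_nonneg_left (h6.trans h8) h7
    rw [e1, e2]
    nlinarith

theorem intble_sqrt (s : ℝ) (C : ℝ) :
    IntervalIntegrable (fun τ => C * √(2 * s / τ)) volume 0 10 := by
  have h1 : IntervalIntegrable (fun τ : ℝ => C * √(2 * s) * τ ^ (-(1/2) : ℝ)) volume 0 10 :=
    (intervalIntegral.intervalIntegrable_rpow' (by norm_num)).const_mul _
  refine h1.congr ?_
  rw [uIoc_of_le (by norm_num)]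
  intro τ hτ
  simp only
  rw [Real.sqrt_div' _ hτ.1.le, Real.sqrt_eq_rpow τ, Real.rpow_neg hτ.1.le]
  ring

theorem integral_sqrt (s : ℝ) (C : ℝ) :
    ∫ τ in (0:ℝ)..10, C * √(2 * s / τ) = C * √(2 * s) * (2 * √10) := by
  have h1 : ∫ τ in (0:ℝ)..10, C * √(2 * s / τ) =
      ∫ τ in (0:ℝ)..10, C * √(2 * s) * τ ^ (-(1/2) : ℝ) := by
    apply intervalIntegral.integral_congr_ae
    refine Eventually.of_forall (fun τ hτ => ?_)
    rw [uIoc_of_le (by norm_num)] at hτ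
    rw [Real.sqrt_div' _ hτ.1.le, Real.sqrt_eq_rpow τ, Real.rpow_neg hτ.1.le]
    ring
  rw [h1, intervalIntegral.integral_const_mul, integral_rpow (Or.inl (by norm_num))]
  congr 1
  rw [Real.sqrt_eq_rpow]
  norm_num
  ring

theorem t_sub_th_mono (m : ℕ) (hm : 1 ≤ m) {t₁ t₂ : ℝ} (h0 : 0 ≤ t₁) (h12 : t₁ ≤ t₂) :
    t₁ - th m t₁ ≤ t₂ - th m t₂ := by
  have h : th m t₂ - th m t₁ ≤ t₂ - t₁ := by
    rw [th_eq m hm, th_eq m hm, intervalIntegral.integral_interval_sub_left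
      ((continuous_wt m).intervalIntegrable _ _) ((continuous_wt m).intervalIntegrable _ _)]
    have e : t₂ - t₁ = ∫ _ in t₁..t₂, (1:ℝ) := by simp
    rw [e]
    apply intervalIntegral.integral_mono_on h12 ((continuous_wt m).intervalIntegrable _ _)
      intervalIntegrable_const
    intro v hv
    exact wt_le_one m (h0.trans hv.1)
  linarith

theorem t_sub_th_le (m : ℕ) (hm : 1 ≤ m) {t : ℝ} (h0 : 0 ≤ t) : t - th m t ≤ t ^ 2 / m := by
  have hm' : (0:ℝ) < m := by exact_mod_cast hm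
  rw [th_eq m hm]
  have e : t - ∫ v in (0:ℝ)..t, wt m v = ∫ v in (0:ℝ)..t, (1 - wt m v) := by
    rw [intervalIntegral.integral_sub intervalIntegrable_const
      ((continuous_wt m).intervalIntegrable _ _)]
    simp
  have e2 : t ^ 2 / m = ∫ v in (0:ℝ)..t, (2 / m) * v := by
    rw [intervalIntegral.integral_const_mul, integral_id]; ring
  rw [e, e2]
  apply intervalIntegral.integral_mono_on h0
    ((continuous_const.sub (continuous_wt m)).intervalIntegrable _ _)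
    (Continuous.intervalIntegrable (by fun_prop) _ _)
  intro v hv
  have h := wt_lip m hm (le_refl (0:ℝ)) hv.1
  have e3 : wt m 0 = 1 := by simp [wt]
  rw [e3, sub_zero] at h
  show 1 - wt m v ≤ 2 / m * v
  linarith

/-- A4' -/
theorem Phi_t_upper' (m : ℕ) (hm : 1 ≤ m) {a : ℝ → ℝ} (ha : Prof a) {X : ℝ}
    (hX : X ∈ Icc 0 Real.pi) {s t₁ t₂ : ℝ} (h0 : 0 ≤ t₁) (h12 : t₁ ≤ t₂) (h2 : t₂ ≤ s) :
    Phi m a X t₁ - Phi m a X t₂ ≤ 2 * √10 * √(2 * s) * (t₂ - t₁) := by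
  have hpi := Real.pi_pos
  have hs : 0 ≤ s := by linarith
  have h7 : 0 ≤ t₂ - t₁ := by linarith
  have e1 : PhiI m a X t₁ - PhiI m a X t₂ = (1 / (4 * Real.pi)) * ∫ τ in (0:ℝ)..10,
      wt m τ * (LL (a τ) X (t₂ - τ) - LL (a τ) X (t₁ - τ) + (t₂ - t₁) * GG (a τ) 0 τ) := by
    unfold PhiI
    have h3 := intervalIntegral.integral_sub (intble_PhiI ha m X t₂ 0 10)
      (intble_PhiI ha m X t₁ 0 10)
    have h4 : (∫ τ in (0:ℝ)..10, wt m τ * (LL (a τ) X (t₂ - τ) - LL (a τ) X (t₁ - τ) +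
        (t₂ - t₁) * GG (a τ) 0 τ)) =
        ∫ τ in (0:ℝ)..10, (wt m τ * (LL (a τ) X (t₂ - τ) - LL (a τ) 0 τ + t₂ * GG (a τ) 0 τ) -
          wt m τ * (LL (a τ) X (t₁ - τ) - LL (a τ) 0 τ + t₁ * GG (a τ) 0 τ)) := by
      congr 1; ext τ; ring
    rw [h4, h3]; ring
  have hbound : (∫ τ in (0:ℝ)..10,
      wt m τ * (LL (a τ) X (t₂ - τ) - LL (a τ) X (t₁ - τ) + (t₂ - t₁) * GG (a τ) 0 τ)) ≤
      ∫ τ in (0:ℝ)..10, ((t₂ - t₁) * (4 * Real.pi)) * √(2 * s / τ) := by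
    apply intervalIntegral.integral_mono_ae_restrict (by norm_num)
      (intble_wt_mul m (((intble_LL ha X t₂ 0 10).sub (intble_LL ha X t₁ 0 10)).add
        ((intble_GG0 ha 0 0 10).const_mul _))) (intble_sqrt s _)
    filter_upwards [ae_ne_restrict t₁ (Icc 0 10), ae_ne_restrict t₂ (Icc 0 10),
      ae_ne_restrict 0 (Icc 0 10), ae_restrict_mem measurableSet_Icc] with τ n1 n2 n0 hτ
    have hτ0 : 0 < τ := lt_of_le_of_ne hτ.1 (Ne.symm n0)
    have h3 := A4_point ⟨ha.nonneg τ, ha.le_pi τ⟩ hX h0 h12 h2 hτ0 n1 n2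
    have h4 := wt_le_one m hτ.1
    have h5 := wt_pos m τ
    have h6 : 0 ≤ (t₂ - t₁) * (4 * Real.pi * √(2 * s / τ)) := by positivity
    calc wt m τ * (LL (a τ) X (t₂ - τ) - LL (a τ) X (t₁ - τ) + (t₂ - t₁) * GG (a τ) 0 τ)
        ≤ wt m τ * ((t₂ - t₁) * (4 * Real.pi * √(2 * s / τ))) :=
          mul_le_mul_of_nonneg_left h3 h5.le
      _ ≤ 1 * ((t₂ - t₁) * (4 * Real.pi * √(2 * s / τ))) := mul_le_mul_of_nonneg_right h4 h6
      _ = _ := by ring
  rw [integral_sqrt] at hbound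
  have hs0 := sig_nonneg m ha
  have h8 := t_sub_th_mono m hm h0 h12
  have h9 : PhiI m a X t₁ - PhiI m a X t₂ ≤ 2 * √10 * √(2 * s) * (t₂ - t₁) := by
    rw [e1]
    calc 1 / (4 * Real.pi) * _ ≤ 1 / (4 * Real.pi) *
          ((t₂ - t₁) * (4 * Real.pi) * √(2 * s) * (2 * √10)) := by gcongr
      _ = _ := by field_simp
  unfold Phi
  nlinarith

end Pool.Agent.Helper90.VS
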