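import Pool.Agent.Helper90.VS.Defs2
import Pool.Agent.Helper67.VS.Rot

open MeasureTheory Set Filter Topology

namespace Pool.Agent.Helper90.VS

theorem norm_root {m : ℕ} (hm : 1 ≤ m) {ζ : ℂ} (hζ : ζ ^ m = 1) : ‖ζ‖ = 1 := by
  have h : ‖ζ‖ ^ m = 1 := by rw [← norm_pow, hζ, norm_one]
  exact (pow_eq_one_iff_of_nonneg (norm_nonneg _) (by omega)).mp h

theorem DD_rot {m : ℕ} (hm : 1 ≤ m) (a : ℝ → ℝ) {ζ : ℂ} (hζ : ζ ^ m = 1) (x : ℂ) :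
    ζ * x ∈ DD m a ↔ x ∈ DD m a := by
  have h1 := norm_root hm hζ
  unfold DD
  simp only [mem_setOf_eq]
  rw [Pool.Agent.Helper67.VSRot.FF_rot m a ζ h1 hζ, norm_mul, h1, one_mul]

/-- multiplication by a unit complex number as a homeomorphism -/
noncomputable def rotH (ζ : ℂ) (hζ : ζ ≠ 0) : ℂ ≃ₜ ℂ := Homeomorph.mulLeft₀ ζ hζ

theorem image_rot {D : Set ℂ} {ζ : ℂ} (hζ : ζ ≠ 0) (hD : ∀ x, ζ * x ∈ D ↔ x ∈ D) :
    rotH ζ hζ '' D = D := by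
  ext y
  constructor
  · rintro ⟨x, hx, rfl⟩
    exact (hD x).mpr hx
  · intro hy
    refine ⟨ζ⁻¹ * y, ?_, ?_⟩
    · rw [← hD, ← mul_assoc, mul_inv_cancel₀ hζ, one_mul]; exact hy
    · show ζ * (ζ⁻¹ * y) = y
      rw [← mul_assoc, mul_inv_cancel₀ hζ, one_mul]

theorem frontier_rot {D : Set ℂ} {ζ : ℂ} (hζ : ζ ≠ 0) (hD : ∀ x, ζ * x ∈ D ↔ x ∈ D) (x : ℂ) :
    ζ * x ∈ frontier D ↔ x ∈ frontier D := by
  have h1 : rotH ζ hζ '' frontier D = frontier D := by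
    rw [(rotH ζ hζ).image_frontier, image_rot hζ hD]
  constructor
  · intro h
    rw [← h1] at h
    obtain ⟨y, hy, hxy⟩ := h
    have : ζ * y = ζ * x := hxy
    rw [mul_left_cancel₀ hζ this] at hy
    exact hy
  · intro h
    rw [← h1]
    exact ⟨x, h, rfl⟩

theorem closure_rot {D : Set ℂ} {ζ : ℂ} (hζ : ζ ≠ 0) (hD : ∀ x, ζ * x ∈ D ↔ x ∈ D) (x : ℂ) :
    ζ * x ∈ closure D ↔ x ∈ closure D := by
  have h1 : rotH ζ hζ '' closure D = closure D := by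
    rw [(rotH ζ hζ).image_closure, image_rot hζ hD]
  constructor
  · intro h
    rw [← h1] at h
    obtain ⟨y, hy, hxy⟩ := h
    have : ζ * y = ζ * x := hxy
    rw [mul_left_cancel₀ hζ this] at hy
    exact hy
  · intro h
    rw [← h1]
    exact ⟨x, h, rfl⟩

theorem arc_rot {γ γ' : ℝ → ℂ} {p ζ : ℂ} (hζ : ζ ≠ 0) (h : IsC1Arc γ γ' p) :
    IsC1Arc (fun t => ζ * γ t) (fun t => ζ * γ' t) (ζ * p) where
  start := by simp only [h.start]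
  deriv := fun t ht => (h.deriv t ht).const_mul ζ
  cont := continuousOn_const.mul h.cont
  regular := fun t ht => mul_ne_zero hζ (h.regular t ht)
  inj := fun x hx y hy hxy => h.inj hx hy (mul_left_cancel₀ hζ hxy)

theorem mem_image_rot {γ : ℝ → ℂ} {ζ : ℂ} (hζ : ζ ≠ 0) (S : Set ℝ) (x : ℂ) :
    ζ * x ∈ (fun t => ζ * γ t) '' S ↔ x ∈ γ '' S := by
  constructor
  · rintro ⟨t, ht, h⟩
    exact ⟨t, ht, mul_left_cancel₀ hζ h⟩
  · rintro ⟨t, ht, rfl⟩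
    exact ⟨t, ht, rfl⟩

theorem corner_rot {D : Set ℂ} {ζ p : ℂ} (hζ1 : ‖ζ‖ = 1) (hD : ∀ x, ζ * x ∈ D ↔ x ∈ D)
    (h : IsRightCorner D p) : IsRightCorner D (ζ * p) := by
  have hζ : ζ ≠ 0 := by intro h0; rw [h0, norm_zero] at hζ1; norm_num at hζ1
  obtain ⟨γ₁, γ₁', γ₂, γ₂', r, hr, ha1, ha2, hint, hfr, hperp, hin, hout⟩ := h
  refine ⟨fun t => ζ * γ₁ t, fun t => ζ * γ₁' t, fun t => ζ * γ₂ t, fun t => ζ * γ₂' t, r, hr,
    arc_rot hζ ha1, arc_rot hζ ha2, ?_, ?_, ?_, ?_, ?_⟩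
  · ext y
    obtain ⟨x, rfl⟩ : ∃ x, y = ζ * x := ⟨ζ⁻¹ * y, by rw [← mul_assoc, mul_inv_cancel₀ hζ, one_mul]⟩
    rw [mem_inter_iff, mem_image_rot hζ, mem_image_rot hζ, ← mem_inter_iff, hint,
      mem_singleton_iff, mem_singleton_iff]
    exact ⟨fun h => by rw [h], fun h => mul_left_cancel₀ hζ h⟩
  · ext y
    obtain ⟨x, rfl⟩ : ∃ x, y = ζ * x := ⟨ζ⁻¹ * y, by rw [← mul_assoc, mul_inv_cancel₀ hζ, one_mul]⟩
    have hb : ζ * x ∈ Metric.ball (ζ * p) r ↔ x ∈ Metric.ball p r := by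
      rw [Metric.mem_ball, Metric.mem_ball, dist_eq_norm, dist_eq_norm, ← mul_sub, norm_mul, hζ1,
        one_mul]
    rw [mem_inter_iff, mem_inter_iff, mem_union, mem_image_rot hζ, mem_image_rot hζ, hb,
      frontier_rot hζ hD]
    have := congrArg (fun S => x ∈ S) hfr
    simp only [mem_inter_iff, mem_union] at this
    rw [this]
  · have : ζ * γ₁' 0 * (starRingEnd ℂ) (ζ * γ₂' 0) = γ₁' 0 * (starRingEnd ℂ) (γ₂' 0) := by
      have h2 : ζ * (starRingEnd ℂ) ζ = 1 := by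
        rw [Complex.mul_conj, Complex.normSq_eq_norm_sq, hζ1]; simp
      rw [map_mul]
      calc ζ * γ₁' 0 * ((starRingEnd ℂ) ζ * (starRingEnd ℂ) (γ₂' 0))
          = (ζ * (starRingEnd ℂ) ζ) * (γ₁' 0 * (starRingEnd ℂ) (γ₂' 0)) := by ring
        _ = _ := by rw [h2, one_mul]
    rw [this]; exact hperp
  · intro α β hα hβ
    filter_upwards [hin α β hα hβ] with s hs
    have e : ζ * p + s * (α * (ζ * γ₁' 0) + β * (ζ * γ₂' 0)) =
        ζ * (p + s * (α * γ₁' 0 + β * γ₂' 0)) := by ring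
    rw [e, hD]; exact hs
  · intro v hv
    obtain ⟨w, rfl⟩ : ∃ w, v = ζ * w := ⟨ζ⁻¹ * v, by rw [← mul_assoc, mul_inv_cancel₀ hζ, one_mul]⟩
    have hw : ¬ ∃ α β : ℝ, 0 ≤ α ∧ 0 ≤ β ∧ w = α * γ₁' 0 + β * γ₂' 0 := by
      rintro ⟨α, β, h1, h2, h3⟩
      exact hv ⟨α, β, h1, h2, by rw [h3]; ring⟩
    filter_upwards [hout w hw] with s hs
    have e : ζ * p + s * (ζ * w) = ζ * (p + s * w) := by ring
    rw [e, closure_rot hζ hD]; exact hs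

end Pool.Agent.Helper90.VS
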