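import Pool.Agent.Helper90.VS.PhiC

open MeasureTheory Set Filter Topology

namespace Pool.Agent.Helper90.VS

theorem continuous_LL_a {s : ℝ} (hs : s ≠ 0) (X : ℝ) : Continuous (fun a => LL a X s) := by
  unfold LL
  have hc : Continuous (fun x => Lam s (X - x) + Lam s (X + x)) :=
    ((continuous_Lam_x hs).comp (by fun_prop)).add ((continuous_Lam_x hs).comp (by fun_prop))
  have h := intervalIntegral.continuous_primitive (μ := volume) (fun a b => hc.intervalIntegrable a b)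
    Real.pi
  have e : (fun a => ∫ x in a..Real.pi, (Lam s (X - x) + Lam s (X + x))) =
      fun a => -∫ x in Real.pi..a, (Lam s (X - x) + Lam s (X + x)) := by
    ext a; rw [intervalIntegral.integral_symm]
  rw [e]; exact h.neg

theorem continuous_GG_a {s : ℝ} (hs : s ≠ 0) (X : ℝ) : Continuous (fun a => GG a X s) := by
  unfold GG
  have hc : Continuous (fun x => lam s (X - x) + lam s (X + x)) :=
    ((continuous_lam_x hs).comp (by fun_prop)).add ((continuous_lam_x hs).comp (by fun_prop))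
  have h := intervalIntegral.continuous_primitive (μ := volume) (fun a b => hc.intervalIntegrable a b)
    Real.pi
  have e : (fun a => ∫ x in a..Real.pi, (lam s (X - x) + lam s (X + x))) =
      fun a => -∫ x in Real.pi..a, (lam s (X - x) + lam s (X + x)) := by
    ext a; rw [intervalIntegral.integral_symm]
  rw [e]; exact h.neg

section tendsto

variable (m : ℕ) (a : ℕ → ℝ → ℝ) (b : ℝ → ℝ) (ha : ∀ n, Prof (a n)) (hb : Prof b)
    (hab : ∀ᵐ t ∂(volume.restrict (Icc (0:ℝ) 10)), Tendsto (fun n => a n t) atTop (𝓝 (b t)))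

include ha hab in
theorem sig_tendsto : Tendsto (fun n => sig m (a n)) atTop (𝓝 (sig m b)) := by
  unfold sig
  apply Tendsto.const_mul
  apply intervalIntegral.tendsto_integral_filter_of_dominated_convergence
    (bound := fun _ => 6 * Real.pi)
  · refine Eventually.of_forall (fun n => ?_)
    rw [uIoc_of_le (by norm_num)]
    exact (intble_sig (ha n) m 0 10).1.aestronglyMeasurable
  · refine Eventually.of_forall (fun n => Eventually.of_forall (fun τ hτ => ?_))
    rw [uIoc_of_le (by norm_num)] at hτ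
    have h1 := GG_nonneg hτ.1.le ((ha n).le_pi τ) 0
    have h1' := GG_le hτ.1.le ((ha n).nonneg τ) 0
    have h2 := (ha n).le_pi τ
    have h3 := (ha n).nonneg τ
    have h4 := wt_le_one m hτ.1.le
    have h5 := wt_pos m τ
    rw [Real.norm_eq_abs, abs_of_nonneg (mul_nonneg h5.le (by linarith))]
    nlinarith
  · exact intervalIntegrable_const
  · have h := (ae_restrict_iff' measurableSet_Icc).mp hab
    filter_upwards [h] with τ hτ h2
    rw [uIoc_of_le (by norm_num)] at h2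
    have h3 := hτ ⟨h2.1.le, h2.2⟩
    have h4 := ((continuous_GG_a h2.1.ne' 0).tendsto (b τ)).comp h3
    exact ((tendsto_const_nhds.sub h3).const_mul 2 |>.add h4).const_mul (wt m τ)

theorem LL_bound_comb (a X t τ : ℝ) (ha : a ∈ Icc 0 Real.pi) (h1 : τ ≠ t) (h2 : 0 < τ) :
    |LL a X (t - τ) - LL a 0 τ + t * GG a 0 τ| ≤
      2 * Real.pi * (|t - τ| + 2 * |Real.log (t - τ)| + 1) +
      2 * Real.pi * (|τ| + 2 * |Real.log τ| + 1) + |t| * (2 * Real.pi) := by
  have h3 := LL_abs_le (sub_ne_zero.mpr (Ne.symm h1)) ha.1 ha.2 X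
  have h4 := LL_abs_le h2.ne' ha.1 ha.2 0
  have h5 := GG_abs_le τ ha.1 ha.2 0
  have h6 : |t * GG a 0 τ| ≤ |t| * (2 * Real.pi) := by
    rw [abs_mul]; exact mul_le_mul_of_nonneg_left h5 (abs_nonneg t)
  have h7 := abs_add_le (LL a X (t - τ) - LL a 0 τ) (t * GG a 0 τ)
  have h8 := abs_sub (LL a X (t - τ)) (LL a 0 τ)
  linarith

theorem intble_bound_comb (t : ℝ) : IntervalIntegrable (fun τ =>
    2 * Real.pi * (|t - τ| + 2 * |Real.log (t - τ)| + 1) +
      2 * Real.pi * (|τ| + 2 * |Real.log τ| + 1) + |t| * (2 * Real.pi)) volume 0 10 := by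
  have h1 : IntervalIntegrable (fun τ => Real.log (t - τ)) volume 0 10 := by
    have := (intervalIntegral.intervalIntegrable_log' (a := t - 0) (b := t - 10)).comp_sub_left t
    simpa using this
  have h2 : IntervalIntegrable (fun τ => Real.log τ) volume 0 10 :=
    intervalIntegral.intervalIntegrable_log'
  have h3 : IntervalIntegrable (fun τ : ℝ => |t - τ|) volume 0 10 :=
    Continuous.intervalIntegrable (by fun_prop) _ _
  have h4 : IntervalIntegrable (fun τ : ℝ => |τ|) volume 0 10 :=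
    Continuous.intervalIntegrable (by fun_prop) _ _
  exact ((((h3.add (h1.abs.const_mul 2)).add intervalIntegrable_const).const_mul _).add
    (((h4.add (h2.abs.const_mul 2)).add intervalIntegrable_const).const_mul _)).add
    intervalIntegrable_const

include ha hab in
theorem PhiI_tendsto (X t : ℝ) :
    Tendsto (fun n => PhiI m (a n) X t) atTop (𝓝 (PhiI m b X t)) := by
  unfold PhiI
  apply Tendsto.const_mul
  apply intervalIntegral.tendsto_integral_filter_of_dominated_convergence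
    (bound := fun τ => 2 * Real.pi * (|t - τ| + 2 * |Real.log (t - τ)| + 1) +
      2 * Real.pi * (|τ| + 2 * |Real.log τ| + 1) + |t| * (2 * Real.pi))
  · refine Eventually.of_forall (fun n => ?_)
    rw [uIoc_of_le (by norm_num)]
    exact (intble_PhiI (ha n) m X t 0 10).1.aestronglyMeasurable
  · refine Eventually.of_forall (fun n => ?_)
    have hne : ∀ᵐ τ : ℝ, τ ≠ t := by simp [ae_iff, measure_singleton]
    filter_upwards [hne] with τ hn hτ
    rw [uIoc_of_le (by norm_num)] at hτ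
    have h1 := LL_bound_comb (a n τ) X t τ ⟨(ha n).nonneg τ, (ha n).le_pi τ⟩ hn hτ.1
    have h4 := wt_le_one m hτ.1.le
    have h5 := wt_pos m τ
    rw [Real.norm_eq_abs, abs_mul, abs_of_pos h5]
    have h6 := abs_nonneg (LL (a n τ) X (t - τ) - LL (a n τ) 0 τ + t * GG (a n τ) 0 τ)
    calc wt m τ * |LL (a n τ) X (t - τ) - LL (a n τ) 0 τ + t * GG (a n τ) 0 τ|
        ≤ 1 * |LL (a n τ) X (t - τ) - LL (a n τ) 0 τ + t * GG (a n τ) 0 τ| := by gcongr
      _ ≤ _ := by rw [one_mul]; exact h1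
  · exact intble_bound_comb t
  · have h := (ae_restrict_iff' measurableSet_Icc).mp hab
    have hne : ∀ᵐ τ : ℝ, τ ≠ t := by simp [ae_iff, measure_singleton]
    filter_upwards [h, hne] with τ hτ hn h2
    rw [uIoc_of_le (by norm_num)] at h2
    have h3 := hτ ⟨h2.1.le, h2.2⟩
    have h4 := ((continuous_GG_a h2.1.ne' 0).tendsto (b τ)).comp h3
    have h5 := ((continuous_LL_a h2.1.ne' 0).tendsto (b τ)).comp h3
    have h6 := ((continuous_LL_a (sub_ne_zero.mpr (Ne.symm hn)) X).tendsto (b τ)).comp h3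
    exact (((h6.sub h5).add (h4.const_mul t)).const_mul (wt m τ))

include ha hab in
/-- A8 -/
theorem Phi_tendsto (X t : ℝ) :
    Tendsto (fun n => Phi m (a n) X t) atTop (𝓝 (Phi m b X t)) := by
  unfold Phi
  exact (PhiI_tendsto m a b ha hab X t).add ((sig_tendsto m a b ha hab).mul_const _)

end tendsto

/-! ### the map `TT` -/

theorem clampT_mem (t : ℝ) : clampT t ∈ Icc (0:ℝ) 10 := by
  unfold clampT
  constructor
  · exact le_max_left _ _
  · exact max_le (by norm_num) (min_le_right _ _)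

theorem clampT_of_mem {t : ℝ} (ht : t ∈ Icc (0:ℝ) 10) : clampT t = t := by
  unfold clampT
  rw [min_eq_left ht.2, max_eq_right ht.1]

theorem clampT_mono {t t' : ℝ} (h : t ≤ t') : clampT t ≤ clampT t' := by
  unfold clampT
  exact max_le_max le_rfl (min_le_min_right _ h)

theorem Phi_zero_zero (m : ℕ) (a : ℝ → ℝ) : Phi m a 0 0 = 0 := by
  unfold Phi PhiI
  have h1 : ∀ τ, wt m τ * (LL (a τ) 0 (0 - τ) - LL (a τ) 0 τ + 0 * GG (a τ) 0 τ) = 0 := by
    intro τ
    rw [zero_sub, LL_neg]; ring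
  simp only [h1]
  simp [th]

/-- strict monotonicity in `X` -/
theorem Phi_strict {m : ℕ} (hm : 1 ≤ m) {a : ℝ → ℝ} (ha : Prof a) (hmass : 0 < mass a)
    {X₁ X₂ t : ℝ} (h1 : 0 ≤ X₁) (h12 : X₁ < X₂) (h2 : X₂ ≤ Real.pi) (ht : t ∈ Icc (0:ℝ) 10) :
    Phi m a X₁ t < Phi m a X₂ t := by
  have h := Phi_X_lower m hm a ha X₁ X₂ t h1 h12.le h2 ht
  have h3 : Real.cos X₂ < Real.cos X₁ := Real.cos_lt_cos_of_nonneg_of_le_pi h1 h2 h12
  have h4 : 0 < Real.exp (-20) / (2 * Real.pi * (Real.cosh 10 + 1)) := by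
    have := Real.cosh_pos 10
    have := Real.pi_pos
    have := Real.exp_pos (-20)
    positivity
  have h5 : 0 < Real.exp (-20) / (2 * Real.pi * (Real.cosh 10 + 1)) * mass a *
      (Real.cos X₁ - Real.cos X₂) := by
    have : 0 < Real.cos X₁ - Real.cos X₂ := by linarith
    positivity
  linarith

theorem Phi_t0_nonneg {m : ℕ} (hm : 1 ≤ m) {a : ℝ → ℝ} (ha : Prof a) (hmass : 0 < mass a)
    {X : ℝ} (h1 : 0 ≤ X) (h2 : X ≤ Real.pi) : 0 ≤ Phi m a X 0 := by
  rcases h1.eq_or_lt with h | h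
  · rw [← h, Phi_zero_zero]
  · have := Phi_strict hm ha hmass le_rfl h h2 ⟨le_rfl, by norm_num⟩ (t := 0)
    rw [Phi_zero_zero] at this
    exact this.le

theorem TT_nonneg (m : ℕ) (a : ℝ → ℝ) (t : ℝ) : 0 ≤ TT m a t := by
  unfold TT
  apply le_csInf ⟨Real.pi, Or.inr rfl⟩
  rintro X (h | h)
  · exact h.1
  · rw [mem_singleton_iff.mp h]; exact Real.pi_pos.le

theorem TT_bddBelow (m : ℕ) (a : ℝ → ℝ) (t : ℝ) :
    BddBelow ({X | 0 ≤ X ∧ X ≤ Real.pi ∧ 0 ≤ Phi m a X (clampT t)} ∪ {Real.pi}) := by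
  refine ⟨0, ?_⟩
  rintro X (h | h)
  · exact h.1
  · rw [mem_singleton_iff.mp h]; exact Real.pi_pos.le

theorem TT_le_pi (m : ℕ) (a : ℝ → ℝ) (t : ℝ) : TT m a t ≤ Real.pi :=
  csInf_le (TT_bddBelow m a t) (Or.inr rfl)

theorem TT_le_of_nonneg {m : ℕ} {a : ℝ → ℝ} {t X : ℝ} (h0 : 0 ≤ X) (h1 : X ≤ Real.pi)
    (h : 0 ≤ Phi m a X (clampT t)) : TT m a t ≤ X :=
  csInf_le (TT_bddBelow m a t) (Or.inl ⟨h0, h1, h⟩)

theorem Phi_neg_of_lt_TT {m : ℕ} {a : ℝ → ℝ} {t X : ℝ} (h0 : 0 ≤ X) (h : X < TT m a t) :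
    Phi m a X (clampT t) < 0 := by
  by_contra hc
  have h1 : X ≤ Real.pi := h.le.trans (TT_le_pi m a t)
  exact absurd (TT_le_of_nonneg h0 h1 (not_lt.mp hc)) (not_le.mpr h)

theorem Phi_pos_of_TT_lt {m : ℕ} (hm : 1 ≤ m) {a : ℝ → ℝ} (ha : Prof a) (hmass : 0 < mass a)
    {t X : ℝ} (h1 : X ≤ Real.pi) (h : TT m a t < X) : 0 < Phi m a X (clampT t) := by
  unfold TT at h
  obtain ⟨X', hX', hlt⟩ := exists_lt_of_csInf_lt ⟨Real.pi, Or.inr rfl⟩ h
  rcases hX' with h' | h'
  · exact h'.2.2.trans_lt (Phi_strict hm ha hmass h'.1 hlt h1 (clampT_mem t))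
  · rw [mem_singleton_iff.mp h'] at hlt
    exact absurd hlt (not_lt.mpr h1)

theorem le_TT_of_neg {m : ℕ} (hm : 1 ≤ m) {a : ℝ → ℝ} (ha : Prof a) (hmass : 0 < mass a)
    {t X : ℝ} (h1 : X ≤ Real.pi) (h : Phi m a X (clampT t) < 0) : X ≤ TT m a t := by
  by_contra hc
  exact absurd (Phi_pos_of_TT_lt hm ha hmass h1 (not_le.mp hc)) (not_lt.mpr h.le)

/-- hypothesis: `Φ/t` strictly antitone -/
def DivAnti (m : ℕ) (a : ℝ → ℝ) : Prop := ∀ X ∈ Icc 0 Real.pi, ∀ t₁ t₂, 0 < t₁ → t₁ < t₂ →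
  t₂ ≤ 10 → Phi m a X t₂ / t₂ < Phi m a X t₁ / t₁

theorem persist_of_divAnti {m : ℕ} {a : ℝ → ℝ} (h : DivAnti m a) {X : ℝ} (hX : X ∈ Icc 0 Real.pi)
    {t₁ t₂ : ℝ} (h1 : 0 < t₁) (h12 : t₁ < t₂) (h2 : t₂ ≤ 10) (hn : Phi m a X t₁ ≤ 0) :
    Phi m a X t₂ < 0 := by
  have h3 := h X hX t₁ t₂ h1 h12 h2
  have h4 : Phi m a X t₁ / t₁ ≤ 0 := div_nonpos_of_nonpos_of_nonneg hn h1.le
  have h5 : Phi m a X t₂ / t₂ < 0 := by linarith
  have h6 : 0 < t₂ := h1.trans h12
  by_contra hc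
  have := div_nonneg (not_lt.mp hc) h6.le
  linarith

theorem TT_prof {m : ℕ} (hm : 1 ≤ m) {a : ℝ → ℝ} (ha : Prof a) (hmass : 0 < mass a)
    (hd : DivAnti m a) : Prof (TT m a) := by
  refine ⟨?_, TT_nonneg m a, TT_le_pi m a⟩
  intro t t' htt
  by_contra hc
  obtain ⟨X, hX1, hX2⟩ := exists_between (not_le.mp hc)
  have h0 : 0 ≤ X := (TT_nonneg m a t').trans hX1.le
  have hpi : X ≤ Real.pi := hX2.le.trans (TT_le_pi m a t)
  have h3 := Phi_neg_of_lt_TT h0 hX2
  have h4 := Phi_pos_of_TT_lt hm ha hmass hpi hX1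
  have h5 := clampT_mono htt
  have h6 := clampT_mem t
  have h7 := clampT_mem t'
  rcases h6.1.eq_or_lt with h8 | h8
  · rw [← h8] at h3
    have := Phi_t0_nonneg hm ha hmass h0 hpi
    linarith
  · rcases h5.eq_or_lt with h9 | h9
    · rw [h9] at h3; linarith
    · have := persist_of_divAnti hd ⟨h0, hpi⟩ h8 h9 h7.2 h3.le
      linarith

theorem TT_tendsto {m : ℕ} (hm : 1 ≤ m) (a : ℕ → ℝ → ℝ) (b : ℝ → ℝ) (ha : ∀ n, Prof (a n))
    (hmass : ∀ n, 0 < mass (a n)) (hb : Prof b) (hbmass : 0 < mass b)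
    (hab : ∀ᵐ t ∂(volume.restrict (Icc (0:ℝ) 10)), Tendsto (fun n => a n t) atTop (𝓝 (b t)))
    (t : ℝ) : Tendsto (fun n => TT m (a n) t) atTop (𝓝 (TT m b t)) := by
  rw [tendsto_order]
  constructor
  · intro c hc
    rcases lt_or_ge c 0 with h0 | h0
    · exact Eventually.of_forall (fun n => h0.trans_le (TT_nonneg m (a n) t))
    · obtain ⟨X, hX1, hX2⟩ := exists_between hc
      have hX0 : 0 ≤ X := h0.trans hX1.le
      have h1 := Phi_neg_of_lt_TT hX0 hX2
      have h2 := (Phi_tendsto m a b ha hab X (clampT t)).eventually_lt_const h1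
      filter_upwards [h2] with n hn
      exact hX1.trans_le (le_TT_of_neg hm (ha n) (hmass n) (hX2.le.trans (TT_le_pi m b t)) hn)
  · intro c hc
    rcases lt_or_ge Real.pi c with h0 | h0
    · exact Eventually.of_forall (fun n => (TT_le_pi m (a n) t).trans_lt h0)
    · obtain ⟨X, hX1, hX2⟩ := exists_between hc
      have hX0 : 0 ≤ X := (TT_nonneg m b t).trans hX1.le
      have hXpi : X ≤ Real.pi := hX2.le.trans h0
      have h1 := Phi_pos_of_TT_lt hm hb hbmass hXpi hX1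
      have h2 := (Phi_tendsto m a b ha hab X (clampT t)).eventually_const_lt h1
      filter_upwards [h2] with n hn
      exact (TT_le_of_nonneg hX0 hXpi hn.le).trans_lt hX2

end Pool.Agent.Helper90.VS
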